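import Pool.Agent.Run7.h9.Cater

set_option autoImplicit false

open scoped BigOperators

namespace Run7.h9

variable {d : ℕ}

/-- `(m + 2 - d)^(d-1) ≤ (d-1)! * C(m, d-1)`, in real form. -/
theorem choose_lower (hd : 2 ≤ d) (m : ℕ) (x : ℝ) (hx : 0 ≤ x)
    (hm : (d : ℝ) * x + d ≤ (m : ℝ) + 2) : x ^ (d - 1) ≤ (m.choose (d - 1) : ℝ) := by
  have h1 : ((m + 1 - (d - 1) : ℕ) : ℝ) ^ (d - 1) ≤ ((d - 1).factorial : ℝ) * (m.choose (d - 1) : ℝ) :=
    (div_le_iff₀' (by exact_mod_cast Nat.factorial_pos _)).1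
      (Nat.pow_le_choose (α := ℝ) (d - 1) m)
  have hdm : (d : ℝ) ≤ (m : ℝ) + 2 := by nlinarith [show (0 : ℝ) ≤ d from Nat.cast_nonneg d]
  have hdm' : d ≤ m + 2 := by exact_mod_cast hdm
  have h2 : ((m + 1 - (d - 1) : ℕ) : ℝ) = (m : ℝ) + 2 - d := by
    have : m + 1 - (d - 1) = m + 2 - d := by omega
    rw [this, Nat.cast_sub hdm']; push_cast; ring
  rw [h2] at h1
  have h3 : (d : ℝ) * x ≤ (m : ℝ) + 2 - d := by linarith
  have h4 : ((d : ℝ) * x) ^ (d - 1) ≤ ((m : ℝ) + 2 - d) ^ (d - 1) :=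
    pow_le_pow_left₀ (by positivity) h3 _
  have h5 : ((d - 1).factorial : ℝ) ≤ (d : ℝ) ^ (d - 1) := by
    have h6 : (d - 1).factorial ≤ (d - 1) ^ (d - 1) := Nat.factorial_le_pow _
    have h7 : (d - 1) ^ (d - 1) ≤ d ^ (d - 1) := Nat.pow_le_pow_left (by omega) _
    exact_mod_cast h6.trans h7
  have h8 : ((d - 1).factorial : ℝ) * x ^ (d - 1) ≤
      ((d - 1).factorial : ℝ) * (m.choose (d - 1) : ℝ) := by
    calc ((d - 1).factorial : ℝ) * x ^ (d - 1) ≤ (d : ℝ) ^ (d - 1) * x ^ (d - 1) :=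
          mul_le_mul_of_nonneg_right h5 (by positivity)
      _ = ((d : ℝ) * x) ^ (d - 1) := by rw [mul_pow]
      _ ≤ _ := h4.trans h1
  exact le_of_mul_le_mul_left h8 (by exact_mod_cast Nat.factorial_pos _)

theorem exists_subset_card_convPos {S Y : Finset (EuclideanSpace ℝ (Fin d))} (hY : Y ⊆ S)
    (hc : ConvPos Y) {n : ℕ} (hn : n ≤ Y.card) : ∃ Z ⊆ S, Z.card = n ∧ ConvPos Z := by
  obtain ⟨Z, hZ, hcard⟩ := Finset.exists_subset_card_eq hn
  exact ⟨Z, hZ.trans hY, hcard, hc.mono hZ⟩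

/-- Few directions: the Füredi type bound up to the logarithm of the number of directions. -/
theorem few_directions_bound (hd : 2 ≤ d) (n : ℕ) (hn : 1 ≤ n) (C : ℕ) (hC : 1 ≤ C)
    (D : Finset (EuclideanSpace ℝ (Fin d))) (hD : D.card ≤ C) (T : HSet d) (hT : Hierarchical T)
    (hdir : ∀ L ∈ T.branches, (L.map Split.dir).Nodup ∧ ∀ s ∈ L, s.dir ∈ D)
    (hN : Real.exp (3 * d * (n : ℝ) ^ (1 / ((d : ℝ) - 1)) * Real.log (C + 1)) ≤
      (T.points.card : ℝ)) :
    ∃ Y ⊆ T.points, Y.card = n ∧ ConvPos Y := by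
  have hd1 : (0 : ℝ) < (d : ℝ) - 1 := by
    have : (2 : ℝ) ≤ d := by exact_mod_cast hd
    linarith
  set x : ℝ := (n : ℝ) ^ (1 / ((d : ℝ) - 1)) with hx
  have hn' : (1 : ℝ) ≤ n := by exact_mod_cast hn
  have hx1 : 1 ≤ x := Real.one_le_rpow hn' (by positivity)
  have hxpow : x ^ (d - 1) = n := by
    rw [hx, ← Real.rpow_natCast, ← Real.rpow_mul (by linarith)]
    have : ((d - 1 : ℕ) : ℝ) = (d : ℝ) - 1 := by
      rw [Nat.cast_sub (by omega)]; simp
    rw [this, one_div_mul_cancel hd1.ne', Real.rpow_one]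
  set m : ℕ := ⌈(d : ℝ) * x + d⌉₊ with hm
  have hm1 : (d : ℝ) * x + d ≤ m := Nat.le_ceil _
  have hdm : d ≤ m := by
    have : (d : ℝ) ≤ m := by nlinarith [show (0 : ℝ) ≤ d from Nat.cast_nonneg d]
    exact_mod_cast this
  have hm2 : (m : ℝ) < (d : ℝ) * x + d + 1 := Nat.ceil_lt_add_one (by positivity)
  have hlt : (D.card + 1) ^ (m - 1) < T.points.card := by
    have h1 : ((C + 1 : ℕ) : ℝ) ^ (m - 1) < Real.exp (3 * d * x * Real.log (C + 1)) := by
      have hpos : (0 : ℝ) < (C : ℝ) + 1 := by positivity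
      have hlog : 0 < Real.log (C + 1) := Real.log_pos (by
        have : (1 : ℝ) ≤ C := by exact_mod_cast hC
        linarith)
      have h2 : ((C + 1 : ℕ) : ℝ) ^ (m - 1) =
          Real.exp (((m - 1 : ℕ) : ℝ) * Real.log (C + 1)) := by
        rw [mul_comm, Real.exp_mul, Real.exp_log hpos, Real.rpow_natCast]; push_cast; rfl
      rw [h2]
      apply Real.exp_lt_exp.2
      apply mul_lt_mul_of_pos_right _ hlog
      have h3 : ((m - 1 : ℕ) : ℝ) = (m : ℝ) - 1 := by
        rw [Nat.cast_sub (by omega)]; simp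
      rw [h3]
      have hd0 : (2 : ℝ) ≤ d := by exact_mod_cast hd
      nlinarith
    have h4 : ((((C + 1) ^ (m - 1) : ℕ)) : ℝ) < (T.points.card : ℝ) := by
      push_cast
      push_cast at h1
      exact h1.trans_le hN
    have h5 : (C + 1) ^ (m - 1) < T.points.card := by exact_mod_cast h4
    exact (Nat.pow_le_pow_left (by omega) _).trans_lt h5
  obtain ⟨Y, hY, hcard, hconv⟩ := few_directions (by omega) T hT D hdir m hdm hlt
  have h5 := choose_lower hd m x (by linarith) (by linarith)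
  rw [hxpow] at h5
  have h6 : n ≤ Y.card := by
    have : n ≤ m.choose (d - 1) := by exact_mod_cast h5
    omega
  exact exists_subset_card_convPos hY hconv h6

/-- Unrestricted directions: exponent `2/(d-1)`. -/
theorem general_bound (hd : 2 ≤ d) (n : ℕ) (hn : 1 ≤ n) (T : HSet d) (hT : Hierarchical T)
    (hN : Real.exp (2 * d * (2 * d + 6) * (n : ℝ) ^ (2 / ((d : ℝ) - 1)) * Real.log (n + 1)) ≤
      (T.points.card : ℝ)) :
    ∃ Y ⊆ T.points, Y.card = n ∧ ConvPos Y := by
  obtain ⟨Y, hY, hc, hconv⟩ := exists_convPos T hT Set.univ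
  by_cases hnF : n ≤ FM d T Set.univ
  · exact exists_subset_card_convPos hY hconv (by omega)
  exfalso
  push Not at hnF
  have hd0 : (2 : ℝ) ≤ d := by exact_mod_cast hd
  have hd1 : (0 : ℝ) < (d : ℝ) - 1 := by linarith
  have hn' : (1 : ℝ) ≤ n := by exact_mod_cast hn
  set x : ℝ := (n : ℝ) ^ (2 / ((d : ℝ) - 1)) with hx
  have hx1 : 1 ≤ x := Real.one_le_rpow hn' (by positivity)
  have hxpow : x ^ (d - 1) = (n : ℝ) ^ 2 := by
    rw [hx, ← Real.rpow_natCast, ← Real.rpow_mul (by linarith)]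
    have : ((d - 1 : ℕ) : ℝ) = (d : ℝ) - 1 := by
      rw [Nat.cast_sub (by omega)]; simp
    rw [this, div_mul_cancel₀ _ hd1.ne']
    exact_mod_cast Real.rpow_natCast (n : ℝ) 2
  have hdp : dp T ≤ 2 * (n * n) + d := dp_le hd T hT n hnF.le
  -- bound on the Strahler number
  have hrk : (rk T : ℝ) ≤ d * x + d := by
    by_contra hcon
    push Not at hcon
    have hdrk : d ≤ rk T := by
      have : (d : ℝ) ≤ rk T := by nlinarith
      exact_mod_cast this
    have h1 := cells_le_sq T hT hdrk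
    have h2 := choose_le_cells (rk T) (d - 1)
    rw [show d - 1 + 1 = d by omega] at h2
    have h3 := choose_lower hd (rk T) x (by linarith) (by linarith)
    rw [hxpow] at h3
    have h4 : n * n ≤ FM d T Set.univ * FM d T Set.univ := by
      have : ((n * n : ℕ) : ℝ) ≤ ((rk T).choose (d - 1) : ℝ) := by push_cast; nlinarith
      have h5 : n * n ≤ (rk T).choose (d - 1) := by exact_mod_cast this
      omega
    have h6 : n ≤ FM d T Set.univ := Nat.mul_self_le_mul_self_iff.1 h4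
    omega
  have hcard := card_points_le T
  have hbase : ((dp T + 1 : ℕ) : ℝ) ≤ ((d : ℝ) + 3) * ((n : ℝ) + 1) ^ 2 := by
    have : ((dp T + 1 : ℕ) : ℝ) ≤ 2 * ((n : ℝ) * n) + d + 1 := by
      have h7 : dp T + 1 ≤ 2 * (n * n) + d + 1 := by omega
      exact_mod_cast h7
    nlinarith
  have hlogb : Real.log ((dp T + 1 : ℕ) : ℝ) ≤ ((d : ℝ) + 3 + 2) * Real.log (n + 1) := by
    have hlog2 : (1 / 2 : ℝ) < Real.log (n + 1) := by
      have h8 : Real.log 2 ≤ Real.log (n + 1) := Real.log_le_log (by norm_num) (by linarith)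
      have h9 := Real.log_two_gt_d9
      linarith
    have hposb : (0 : ℝ) < ((dp T + 1 : ℕ) : ℝ) := by positivity
    calc Real.log ((dp T + 1 : ℕ) : ℝ) ≤ Real.log (((d : ℝ) + 3) * ((n : ℝ) + 1) ^ 2) :=
          Real.log_le_log hposb hbase
      _ = Real.log ((d : ℝ) + 3) + 2 * Real.log (n + 1) := by
          rw [Real.log_mul (by positivity) (by positivity), Real.log_pow]; push_cast; ring
      _ ≤ ((d : ℝ) + 3) * Real.log (n + 1) + 2 * Real.log (n + 1) := by
          have h10 : Real.log ((d : ℝ) + 3) ≤ ((d : ℝ) + 3) / 2 := by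
            have h11 := Real.add_one_le_exp (((d : ℝ) + 3) / 2)
            have h12 : ((d : ℝ) + 3) ≤ Real.exp (((d : ℝ) + 3) / 2) := by
              have h13 := Real.quadratic_le_exp_of_nonneg (x := ((d : ℝ) + 3) / 2) (by positivity)
              nlinarith
            rw [Real.log_le_iff_le_exp (by positivity)]
            exact h12
          nlinarith
      _ = _ := by ring
  have hfinal : (T.points.card : ℝ) <
      Real.exp (2 * d * (2 * d + 6) * x * Real.log (n + 1)) := by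
    have h1 : (T.points.card : ℝ) ≤ ((dp T + 1 : ℕ) : ℝ) ^ rk T := by exact_mod_cast hcard
    have h2 : ((dp T + 1 : ℕ) : ℝ) ^ rk T =
        Real.exp ((rk T : ℝ) * Real.log ((dp T + 1 : ℕ) : ℝ)) := by
      rw [mul_comm, Real.exp_mul, Real.exp_log (by positivity), Real.rpow_natCast]
    refine h1.trans_lt ?_
    rw [h2]
    apply Real.exp_lt_exp.2
    have hlogn : 0 < Real.log ((n : ℝ) + 1) := Real.log_pos (by linarith)
    have h3 : 0 ≤ Real.log ((dp T + 1 : ℕ) : ℝ) := Real.log_natCast_nonneg _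
    calc (rk T : ℝ) * Real.log ((dp T + 1 : ℕ) : ℝ)
        ≤ (d * x + d) * (((d : ℝ) + 3 + 2) * Real.log (n + 1)) :=
          mul_le_mul hrk hlogb h3 (by positivity)
      _ ≤ (2 * d * x) * (((d : ℝ) + 3 + 2) * Real.log (n + 1)) := by
          apply mul_le_mul_of_nonneg_right _ (by positivity)
          nlinarith
      _ < 2 * d * (2 * d + 6) * x * Real.log (n + 1) := by
          have h4 : (2 * d * x) * (((d : ℝ) + 3 + 2) * Real.log (n + 1)) =
            (2 * d * x * Real.log (n + 1)) * ((d : ℝ) + 5) := by ring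
          have h5 : 2 * d * (2 * d + 6) * x * Real.log (n + 1) =
            (2 * d * x * Real.log (n + 1)) * (2 * (d : ℝ) + 6) := by ring
          rw [h4, h5]
          apply mul_lt_mul_of_pos_left _ (by positivity)
          linarith
  linarith

end Run7.h9
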