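import Pool.Agent.Run7.h9.Prod

set_option autoImplicit false

open scoped BigOperators

namespace Run7.h9

/-! ### Monotone sublists -/

/-- Left-to-right minima of a list below a threshold, and the remaining elements. -/
noncomputable def LM : ℝ → List ℝ → List ℝ × List ℝ
  | _, [] => ([], [])
  | t, x :: l => open Classical in
      if x < t then (x :: (LM x l).1, (LM x l).2) else ((LM t l).1, x :: (LM t l).2)

theorem LM_length (l : List ℝ) : ∀ t : ℝ, (LM t l).1.length + (LM t l).2.length = l.length := by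
  induction l with
  | nil => intro t; simp [LM]
  | cons x l ih =>
    intro t
    rw [LM]
    split_ifs with h
    · have := ih x; simp only [List.length_cons]; omega
    · have := ih t; simp only [List.length_cons]; omega

theorem LM_sub1 (l : List ℝ) : ∀ t : ℝ, (LM t l).1.Sublist l := by
  induction l with
  | nil => intro t; simp [LM]
  | cons x l ih =>
    intro t
    rw [LM]
    split_ifs with h
    · exact (ih x).cons_cons x
    · exact (ih t).cons x

theorem LM_sub2 (l : List ℝ) : ∀ t : ℝ, (LM t l).2.Sublist l := by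
  induction l with
  | nil => intro t; simp [LM]
  | cons x l ih =>
    intro t
    rw [LM]
    split_ifs with h
    · exact (ih x).cons x
    · exact (ih t).cons_cons x

theorem LM_dec (l : List ℝ) : ∀ t : ℝ, (LM t l).1.Pairwise (· > ·) ∧ ∀ x ∈ (LM t l).1, x < t := by
  induction l with
  | nil => intro t; simp [LM]
  | cons x l ih =>
    intro t
    rw [LM]
    split_ifs with h
    · obtain ⟨h1, h2⟩ := ih x
      refine ⟨List.Pairwise.cons (fun y hy => h2 y hy) h1, ?_⟩
      intro y hy
      rcases List.mem_cons.1 hy with rfl | hy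
      · exact h
      · exact (h2 y hy).trans h
    · exact ih t

theorem LM_ext (l : List ℝ) : ∀ t : ℝ, l.Nodup → ∀ (y : ℝ) (c : List ℝ),
    (y :: c).Sublist (LM t l).2 → t ≤ y ∨ ∃ x, x < y ∧ (x :: y :: c).Sublist l := by
  induction l with
  | nil => intro t _ y c h; simp [LM] at h
  | cons x l ih =>
    intro t hnd y c h
    rw [List.nodup_cons] at hnd
    rw [LM] at h
    split_ifs at h with hx
    · rcases ih x hnd.2 y c h with h1 | ⟨z, hz, hs⟩
      · right
        have hyl : (y :: c).Sublist l := h.trans (LM_sub2 l x)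
        have hy : y ∈ l := hyl.subset List.mem_cons_self
        have hne : x ≠ y := fun he => hnd.1 (he ▸ hy)
        exact ⟨x, lt_of_le_of_ne h1 hne, hyl.cons_cons x⟩
      · exact Or.inr ⟨z, hz, hs.cons x⟩
    · have h' : (y :: c).Sublist (x :: (LM t l).2) := h
      rcases List.sublist_cons_iff.1 h' with h1 | ⟨r, hr, hs⟩
      · rcases ih t hnd.2 y c h1 with h2 | ⟨z, hz, hs⟩
        · exact Or.inl h2
        · exact Or.inr ⟨z, hz, hs.cons x⟩
      · simp only [List.cons.injEq] at hr
        left
        rw [hr.1]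
        exact not_lt.1 hx

/-- The Erdős–Szekeres theorem on monotone subsequences, for lists of reals. -/
theorem monotone_sublist (b : ℕ) : ∀ a : ℕ, ∀ l : List ℝ, l.Nodup → a * b < l.length →
    (∃ c : List ℝ, c.Sublist l ∧ c.Pairwise (· < ·) ∧ c.length = a + 1) ∨
    (∃ c : List ℝ, c.Sublist l ∧ c.Pairwise (· > ·) ∧ c.length = b + 1) := by
  intro a
  induction a with
  | zero =>
    intro l _ hl
    rw [zero_mul] at hl
    obtain ⟨x, hx⟩ := List.exists_mem_of_length_pos hl
    exact Or.inl ⟨[x], List.singleton_sublist.2 hx, List.pairwise_singleton _ _, rfl⟩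
  | succ a ih =>
    intro l hnd hl
    -- a threshold larger than all elements
    obtain ⟨t, ht⟩ : ∃ t : ℝ, ∀ x ∈ l, x < t := by
      clear hl hnd
      induction l with
      | nil => exact ⟨0, by simp⟩
      | cons x l ih' =>
        obtain ⟨t, ht⟩ := ih'
        refine ⟨max t (x + 1), fun y hy => ?_⟩
        rcases List.mem_cons.1 hy with rfl | hy
        · exact lt_of_lt_of_le (lt_add_one _) (le_max_right _ _)
        · exact (ht y hy).trans_le (le_max_left _ _)
    by_cases h1 : b + 1 ≤ (LM t l).1.length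
    · right
      refine ⟨(LM t l).1.take (b + 1), (List.take_sublist _ _).trans (LM_sub1 l t),
        ((LM_dec l t).1).sublist (List.take_sublist _ _), ?_⟩
      rw [List.length_take, min_eq_left h1]
    · push Not at h1
      have h2 := LM_length l t
      have h3 : a * b < (LM t l).2.length := by
        have : (a + 1) * b = a * b + b := by ring
        omega
      rcases ih (LM t l).2 (hnd.sublist (LM_sub2 l t)) h3 with ⟨c, hc, hpw, hlen⟩ | ⟨c, hc, hpw, hlen⟩
      · left
        cases c with
        | nil => simp at hlen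
        | cons y c =>
          rcases LM_ext l t hnd y c hc with h4 | ⟨x, hx, hs⟩
          · have := ht y ((hc.trans (LM_sub2 l t)).subset List.mem_cons_self)
            exact absurd h4 (not_le.2 this)
          · refine ⟨x :: y :: c, hs, List.Pairwise.cons ?_ hpw, by simp at hlen ⊢; omega⟩
            intro z hz
            rcases List.mem_cons.1 hz with rfl | hz
            · exact hx
            · exact hx.trans ((List.pairwise_cons.1 hpw).1 z hz)
      · exact Or.inr ⟨c, hc.trans (LM_sub2 l t), hpw, hlen⟩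

/-! ### Caterpillars -/

variable {d : ℕ}

/-- Branches with turns. -/
def tpaths : HSet d → Set (List (EuclideanSpace ℝ (Fin d) × Bool))
  | HSet.pt _ => {[]}
  | HSet.join v A B =>
      {p | (∃ p' ∈ tpaths A, p = (v, false) :: p') ∨ (∃ p' ∈ tpaths B, p = (v, true) :: p')}

/-- Sign of a turn. -/
def sg (b : Bool) : ℝ := if b = true then 1 else -1

theorem sg_not (b : Bool) : sg (!b) = - sg b := by cases b <;> simp [sg]

theorem sg_sq (b : Bool) : sg b * sg b = 1 := by cases b <;> simp [sg]

/-- The part of `H` on a side of a split. -/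
def sideS (H : Set (Fl d)) (v : EuclideanSpace ℝ (Fin d)) (b : Bool) : Set (Fl d) :=
  {φ ∈ H | 0 < sg b * φ v}

theorem sideS_false (H : Set (Fl d)) (v : EuclideanSpace ℝ (Fin d)) :
    sideS H v false = {φ ∈ H | φ v < 0} := by
  ext φ; simp [sideS, sg]

theorem sideS_true (H : Set (Fl d)) (v : EuclideanSpace ℝ (Fin d)) :
    sideS H v true = {φ ∈ H | 0 < φ v} := by
  ext φ; simp [sideS, sg]

/-- A chain of turns all of whose off-branch cells are nonempty. -/
def Chn : List (EuclideanSpace ℝ (Fin d) × Bool) → Set (Fl d) → Prop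
  | [], H => H.Nonempty
  | q :: c, H => (sideS H q.1 (!q.2)).Nonempty ∧ Chn c (sideS H q.1 q.2)

theorem FM_zero_pos (T : HSet d) : ∀ H : Set (Fl d), H.Nonempty → 1 ≤ FM 0 T H := by
  classical
  induction T with
  | pt x => intro H h; simp [FM, h]
  | join v A B ihA ihB =>
    intro H h
    rw [FM]
    exact (ihA H h).trans ((le_max_left _ _).trans (le_max_left _ _))

theorem chain_le_FM0 (T : HSet d) : ∀ p ∈ tpaths T, ∀ c : List (EuclideanSpace ℝ (Fin d) × Bool),
    c.Sublist p → ∀ H : Set (Fl d), Chn c H → c.length + 1 ≤ FM 0 T H := by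
  classical
  induction T with
  | pt x =>
    intro p hp c hc H h
    simp only [tpaths, Set.mem_singleton_iff] at hp
    subst hp
    rw [List.sublist_nil] at hc
    subst hc
    have h' : H.Nonempty := h
    simp [FM, h']
  | join v A B ihA ihB =>
    intro p hp c hc H h
    rw [FM]
    rcases hp with ⟨p', hp', rfl⟩ | ⟨p', hp', rfl⟩
    · rcases List.sublist_cons_iff.1 hc with h1 | ⟨r, rfl, hs⟩
      · exact (ihA p' hp' c h1 H h).trans ((le_max_left _ _).trans (le_max_left _ _))
      · obtain ⟨h2, h3⟩ := h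
        simp only [Bool.not_false] at h2 h3
        rw [sideS_true] at h2
        rw [sideS_false] at h3
        have h4 := ihA p' hp' r hs _ h3
        have h5 := FM_zero_pos B _ h2
        refine le_trans ?_ (le_max_right _ _)
        rw [List.length_cons, Nat.zero_sub]
        omega
    · rcases List.sublist_cons_iff.1 hc with h1 | ⟨r, rfl, hs⟩
      · exact (ihB p' hp' c h1 H h).trans ((le_max_right _ _).trans (le_max_left _ _))
      · obtain ⟨h2, h3⟩ := h
        simp only [Bool.not_true] at h2 h3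
        rw [sideS_false] at h2
        rw [sideS_true] at h3
        have h4 := ihB p' hp' r hs _ h3
        have h5 := FM_zero_pos A _ h2
        refine le_trans ?_ (le_max_right _ _)
        rw [List.length_cons, Nat.zero_sub]
        omega

theorem chain_le_FM (T : HSet d) : ∀ r : ℕ, ∀ p ∈ tpaths T,
    ∀ c : List (EuclideanSpace ℝ (Fin d) × Bool), r ≤ p.length →
    c.Sublist (p.drop r) → ∀ H : Set (Fl d), Chn c H → c.length + 1 ≤ FM r T H := by
  classical
  induction T with
  | pt x =>
    intro r p hp c hr hc H h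
    simp only [tpaths, Set.mem_singleton_iff] at hp
    subst hp
    have hr0 : r = 0 := by simpa using hr
    subst hr0
    exact chain_le_FM0 (HSet.pt x) [] (by simp [tpaths]) c (by simpa using hc) H h
  | join v A B ihA ihB =>
    intro r p hp c hr hc H h
    rcases Nat.eq_zero_or_pos r with hr0 | hrpos
    · subst hr0
      exact chain_le_FM0 _ p hp c (by simpa using hc) H h
    · obtain ⟨r', rfl⟩ : ∃ r', r = r' + 1 := ⟨r - 1, by omega⟩
      rw [FM, Nat.add_sub_cancel]
      rcases hp with ⟨p', hp', rfl⟩ | ⟨p', hp', rfl⟩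
      · rw [List.drop_succ_cons] at hc
        rw [List.length_cons] at hr
        exact (ihA r' p' hp' c (by omega) hc H h).trans
          ((le_max_left _ _).trans (le_max_left _ _))
      · rw [List.drop_succ_cons] at hc
        rw [List.length_cons] at hr
        exact (ihB r' p' hp' c (by omega) hc H h).trans
          ((le_max_right _ _).trans (le_max_left _ _))

/-- Chains with increasing thresholds along a line of functionals. -/
theorem chn_of_increasing (φ₀ ψ₀ : Fl d) (e₁ e₂ : ℝ) (he₂ : e₂ * e₂ = 1)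
    (c : List (EuclideanSpace ℝ (Fin d) × Bool)) :
    ∀ (t : ℝ) (H : Set (Fl d)), (∀ s : ℝ, t < s → e₁ • (φ₀ + (e₂ * s) • ψ₀) ∈ H) →
    (∀ q ∈ c, 0 < sg q.2 * (e₁ * e₂) * ψ₀ q.1) →
    (c.map fun q => -(e₂ * (φ₀ q.1 / ψ₀ q.1))).Pairwise (· < ·) →
    (∀ q ∈ c, t < -(e₂ * (φ₀ q.1 / ψ₀ q.1))) → Chn c H := by
  induction c with
  | nil =>
    intro t H hH _ _ _
    exact ⟨_, hH (t + 1) (lt_add_one t)⟩
  | cons q c ih =>
    intro t H hH hs hpw ht
    set τ : ℝ := -(e₂ * (φ₀ q.1 / ψ₀ q.1)) with hτ
    have hq := hs q List.mem_cons_self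
    have hψ : ψ₀ q.1 ≠ 0 := by
      intro h0; rw [h0, mul_zero] at hq; exact lt_irrefl _ hq
    have hval : ∀ s : ℝ, (e₁ • (φ₀ + (e₂ * s) • ψ₀)) q.1 = (e₁ * e₂) * ψ₀ q.1 * (s - τ) := by
      intro s
      simp only [LinearMap.smul_apply, LinearMap.add_apply, smul_eq_mul, hτ]
      field_simp
      have : e₂ ^ 2 = 1 := by rw [pow_two]; exact he₂
      ring_nf
      rw [this]; ring
    have hτt := ht q List.mem_cons_self
    rw [List.map_cons, List.pairwise_cons] at hpw
    refine ⟨?_, ?_⟩
    · refine ⟨e₁ • (φ₀ + (e₂ * ((t + τ) / 2)) • ψ₀), hH _ (by linarith), ?_⟩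
      rw [hval, sg_not]
      have : -sg q.2 * ((e₁ * e₂) * ψ₀ q.1 * ((t + τ) / 2 - τ)) =
        (sg q.2 * (e₁ * e₂) * ψ₀ q.1) * ((τ - t) / 2) := by ring
      rw [this]
      exact mul_pos hq (by linarith)
    · refine ih τ _ ?_ (fun q' hq' => hs q' (List.mem_cons_of_mem _ hq')) hpw.2 ?_
      · intro s hs'
        refine ⟨hH s (hτt.trans hs'), ?_⟩
        rw [hval]
        have : sg q.2 * ((e₁ * e₂) * ψ₀ q.1 * (s - τ)) =
          (sg q.2 * (e₁ * e₂) * ψ₀ q.1) * (s - τ) := by ring
        rw [this]
        exact mul_pos hq (by linarith)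
      · intro q' hq'
        exact hpw.1 _ (List.mem_map_of_mem hq')

/-- A long list of pairwise independent directions contains a long realisable chain. -/
theorem exists_chain (p : List (EuclideanSpace ℝ (Fin d) × Bool)) (φ₀ ψ₀ : Fl d)
    (hψ : ∀ q ∈ p, ψ₀ q.1 ≠ 0) (hnd : (p.map fun q => φ₀ q.1 / ψ₀ q.1).Nodup) (a : ℕ)
    (ha : 2 * (a * a) < p.length) :
    ∃ c : List (EuclideanSpace ℝ (Fin d) × Bool), c.Sublist p ∧ c.length = a + 1 ∧
      Chn c Set.univ := by
  classical
  -- the two classes
  have hsplit : ∃ κ : ℝ, κ * κ = 1 ∧ a * a < (p.filter fun q => 0 < sg q.2 * κ * ψ₀ q.1).length := by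
    by_contra hcon
    push Not at hcon
    have h1 := hcon 1 (by norm_num)
    have h2 := hcon (-1) (by norm_num)
    have h3 : p.length ≤ (p.filter fun q => 0 < sg q.2 * 1 * ψ₀ q.1).length +
        (p.filter fun q => 0 < sg q.2 * (-1) * ψ₀ q.1).length := by
      clear h1 h2 hcon ha hnd
      induction p with
      | nil => simp
      | cons q p ih =>
        have ih' := ih fun q' hq' => hψ q' (List.mem_cons_of_mem _ hq')
        have hq := hψ q List.mem_cons_self
        have hne : sg q.2 * 1 * ψ₀ q.1 ≠ 0 := by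
          have h4 := sg_sq q.2
          intro h5
          rcases mul_eq_zero.1 h5 with h6 | h6
          · rw [mul_one] at h6; rw [h6] at h4; norm_num at h4
          · exact hq h6
        rcases lt_or_gt_of_ne hne with hlt | hgt
        · have h6 : 0 < sg q.2 * (-1) * ψ₀ q.1 := by nlinarith
          have h7 : ¬ 0 < sg q.2 * 1 * ψ₀ q.1 := not_lt.2 hlt.le
          rw [List.filter_cons_of_neg (by simpa using h7), List.filter_cons_of_pos (by simpa using h6)]
          simp only [List.length_cons]
          omega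
        · have h6 : ¬ 0 < sg q.2 * (-1) * ψ₀ q.1 := by
            intro h; nlinarith
          rw [List.filter_cons_of_pos (by simpa using hgt), List.filter_cons_of_neg (by simpa using h6)]
          simp only [List.length_cons]
          omega
    omega
  obtain ⟨κ, hκ, hlen⟩ := hsplit
  set p' := p.filter fun q => 0 < sg q.2 * κ * ψ₀ q.1 with hp'
  have hp's : p'.Sublist p := List.filter_sublist
  have hp'm : ∀ q ∈ p', 0 < sg q.2 * κ * ψ₀ q.1 := by
    intro q hq
    rw [hp', List.mem_filter] at hq
    simpa using hq.2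
  have hnd' : (p'.map fun q => φ₀ q.1 / ψ₀ q.1).Nodup := hnd.sublist (hp's.map _)
  have lift : ∀ c : List ℝ, c.Sublist (p'.map fun q => φ₀ q.1 / ψ₀ q.1) →
      ∃ c' : List (EuclideanSpace ℝ (Fin d) × Bool), c'.Sublist p' ∧
        c'.map (fun q => φ₀ q.1 / ψ₀ q.1) = c := by
    intro c hc
    obtain ⟨c', hc', h⟩ := List.sublist_map_iff.1 hc
    exact ⟨c', hc', h.symm⟩
  -- a lower bound for all thresholds
  have hbound : ∀ (l : List ℝ), ∃ t : ℝ, ∀ x ∈ l, t < x := by
    intro l
    induction l with
    | nil => exact ⟨0, by simp⟩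
    | cons x l ih' =>
      obtain ⟨t, ht⟩ := ih'
      refine ⟨min t (x - 1), fun y hy => ?_⟩
      rcases List.mem_cons.1 hy with rfl | hy
      · exact lt_of_le_of_lt (min_le_right _ _) (by linarith)
      · exact (min_le_left _ _).trans_lt (ht y hy)
  rcases monotone_sublist a a (p'.map fun q => φ₀ q.1 / ψ₀ q.1) hnd' (by simpa using hlen) with
    ⟨c, hc, hpw, hcl⟩ | ⟨c, hc, hpw, hcl⟩
  · obtain ⟨c', hc', rfl⟩ := lift c hc
    refine ⟨c', hc'.trans hp's, by simpa using hcl, ?_⟩
    obtain ⟨t, ht⟩ := hbound (c'.map fun q => -((-1) * (φ₀ q.1 / ψ₀ q.1)))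
    refine chn_of_increasing φ₀ ψ₀ (-κ) (-1) (by norm_num) c' t Set.univ (fun _ _ => trivial) ?_ ?_ ?_
    · intro q hq
      have := hp'm q (hc'.subset hq)
      have h2 : sg q.2 * (-κ * -1) * ψ₀ q.1 = sg q.2 * κ * ψ₀ q.1 := by ring
      rw [h2]; exact this
    · rw [List.pairwise_map] at hpw ⊢
      refine hpw.imp ?_
      intro x y hxy
      linarith
    · intro q hq
      exact ht _ (List.mem_map_of_mem hq)
  · obtain ⟨c', hc', rfl⟩ := lift c hc
    refine ⟨c', hc'.trans hp's, by simpa using hcl, ?_⟩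
    obtain ⟨t, ht⟩ := hbound (c'.map fun q => -(1 * (φ₀ q.1 / ψ₀ q.1)))
    refine chn_of_increasing φ₀ ψ₀ κ 1 (by norm_num) c' t Set.univ (fun _ _ => trivial) ?_ ?_ ?_
    · intro q hq
      have := hp'm q (hc'.subset hq)
      have h2 : sg q.2 * (κ * 1) * ψ₀ q.1 = sg q.2 * κ * ψ₀ q.1 := by ring
      rw [h2]; exact this
    · rw [List.pairwise_map] at hpw ⊢
      refine hpw.imp ?_
      intro x y hxy
      have hxy' : φ₀ y.1 / ψ₀ y.1 < φ₀ x.1 / ψ₀ x.1 := hxy
      linarith
    · intro q hq
      exact ht _ (List.mem_map_of_mem hq)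

theorem exists_tpath_dp (T : HSet d) : ∃ p ∈ tpaths T, p.length = dp T := by
  induction T with
  | pt x => exact ⟨[], by simp [tpaths], by simp [dp]⟩
  | join v A B ihA ihB =>
    obtain ⟨pA, hA, hlA⟩ := ihA
    obtain ⟨pB, hB, hlB⟩ := ihB
    rcases le_total (dp A) (dp B) with h | h
    · refine ⟨(v, true) :: pB, Or.inr ⟨pB, hB, rfl⟩, ?_⟩
      rw [dp, max_eq_right h, List.length_cons, hlB]
    · refine ⟨(v, false) :: pA, Or.inl ⟨pA, hA, rfl⟩, ?_⟩
      rw [dp, max_eq_left h, List.length_cons, hlA]

theorem tpath_branch (T : HSet d) : ∀ p ∈ tpaths T, ∃ L ∈ T.branches,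
    L.map Split.dir = p.map Prod.fst := by
  induction T with
  | pt x =>
    intro p hp
    simp only [tpaths, Set.mem_singleton_iff] at hp
    exact ⟨[], by simp [HSet.branches], by simp [hp]⟩
  | join v A B ihA ihB =>
    intro p hp
    rcases hp with ⟨p', hp', rfl⟩ | ⟨p', hp', rfl⟩
    · obtain ⟨L, hL, h⟩ := ihA p' hp'
      exact ⟨_, ⟨L, Or.inl hL, rfl⟩, by simp [h]⟩
    · obtain ⟨L, hL, h⟩ := ihB p' hp'
      exact ⟨_, ⟨L, Or.inr hL, rfl⟩, by simp [h]⟩

/-- Generic line of functionals for a list of pairwise independent vectors. -/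
theorem exists_generic (hd : 2 ≤ d) (l : List (EuclideanSpace ℝ (Fin d))) (h : LIc l) :
    ∃ φ₀ ψ₀ : Fl d, (∀ v ∈ l, ψ₀ v ≠ 0) ∧ (l.map fun v => φ₀ v / ψ₀ v).Nodup := by
  classical
  have hnz : ∀ i : Fin l.length, l.get i ≠ 0 := by
    intro i
    have h1 := h [l.get i] (List.singleton_sublist.2 (List.get_mem l i)) (by simp; omega)
    exact h1.ne_zero (⟨0, by simp⟩ : Fin [l.get i].length)
  obtain ⟨ψ₀, hψ₀⟩ := Module.exists_dual_forall_apply_ne_zero (K := ℝ) (fun i => l.get i) hnz
  have hpair : ∀ q : {q : Fin l.length × Fin l.length // q.1 < q.2},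
      ψ₀ (l.get q.1.2) • l.get q.1.1 - ψ₀ (l.get q.1.1) • l.get q.1.2 ≠ 0 := by
    rintro ⟨⟨i, j⟩, hij⟩ h0
    simp only at hij h0
    have hsub : [l.get i, l.get j].Sublist l := by
      rw [List.sublist_iff_exists_fin_orderEmbedding_get_eq]
      refine ⟨OrderEmbedding.ofStrictMono (fun k : Fin [l.get i, l.get j].length =>
        if (k : ℕ) = 0 then i else j) ?_, ?_⟩
      · intro a b hab
        have ha := a.2
        have hb := b.2
        simp only [List.length_cons, List.length_nil] at ha hb
        have hab' : (a : ℕ) < b := hab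
        have ha0 : (a : ℕ) = 0 := by omega
        have hb0 : (b : ℕ) ≠ 0 := by omega
        simp only [ha0, if_true, hb0, if_false]
        exact hij
      · intro k
        have hk := k.2
        simp only [List.length_cons, List.length_nil] at hk
        rcases Nat.lt_or_ge (k : ℕ) 1 with h1 | h1
        · have hk0 : k = ⟨0, by simp⟩ := by ext; simp; omega
          subst hk0; simp
        · have hk1 : k = ⟨1, by simp⟩ := by ext; simp; omega
          subst hk1; simp
    have hli := h _ hsub (by simp; omega)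
    have h2 := Fintype.linearIndependent_iff.1 hli
      (fun k => if (k : ℕ) = 0 then ψ₀ (l.get j) else - ψ₀ (l.get i)) (by
        have : ∑ k : Fin [l.get i, l.get j].length,
            (if (k : ℕ) = 0 then ψ₀ (l.get j) else - ψ₀ (l.get i)) • [l.get i, l.get j].get k =
            ψ₀ (l.get j) • l.get i - ψ₀ (l.get i) • l.get j := by
          rw [show (∑ k : Fin [l.get i, l.get j].length,
            (if (k : ℕ) = 0 then ψ₀ (l.get j) else - ψ₀ (l.get i)) • [l.get i, l.get j].get k) =
            ∑ k : Fin 2, (if (k : ℕ) = 0 then ψ₀ (l.get j) else - ψ₀ (l.get i)) •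
              [l.get i, l.get j].get k from rfl]
          rw [Fin.sum_univ_two]
          simp [sub_eq_add_neg]
        rw [this]; exact h0) ⟨0, by simp⟩
    simp only [if_true] at h2
    exact hψ₀ j h2
  obtain ⟨φ₀, hφ₀⟩ := Module.exists_dual_forall_apply_ne_zero (K := ℝ)
    (fun q : {q : Fin l.length × Fin l.length // q.1 < q.2} =>
      ψ₀ (l.get q.1.2) • l.get q.1.1 - ψ₀ (l.get q.1.1) • l.get q.1.2) hpair
  refine ⟨φ₀, ψ₀, ?_, ?_⟩
  · intro v hv
    obtain ⟨i, rfl⟩ := List.get_of_mem hv
    exact hψ₀ i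
  · rw [List.Nodup, List.pairwise_map, List.pairwise_iff_get]
    intro i j hij heq
    have h1 := hφ₀ ⟨(i, j), hij⟩
    apply h1
    simp only [map_sub, map_smul, smul_eq_mul]
    rw [div_eq_div_iff (hψ₀ i) (hψ₀ j)] at heq
    linarith

/-- Depth bound. -/
theorem dp_le (hd : 2 ≤ d) (T : HSet d) (hT : Hierarchical T) (F : ℕ)
    (hF : FM d T Set.univ ≤ F) : dp T ≤ 2 * (F * F) + d := by
  classical
  by_contra hcon
  push Not at hcon
  obtain ⟨p, hp, hlen⟩ := exists_tpath_dp T
  obtain ⟨L, hL, hLp⟩ := tpath_branch T p hp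
  have hlenL : L.length = p.length := by
    have := congrArg List.length hLp
    simpa using this
  have hLI := LIc_branch T hT L hL (by omega)
  obtain ⟨φ₀, ψ₀, h1, h2⟩ := exists_generic hd _ hLI
  rw [hLp] at h1 h2
  have hdrop : (p.drop d).Sublist p := List.drop_sublist d p
  obtain ⟨c, hc, hcl, hch⟩ := exists_chain (p.drop d) φ₀ ψ₀
    (fun q hq => h1 q.1 (List.mem_map_of_mem (hdrop.subset hq)))
    (by
      rw [List.map_map] at h2
      exact h2.sublist (hdrop.map _)) F (by rw [List.length_drop]; omega)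
  have := chain_le_FM T d p hp c (by omega) hc Set.univ hch
  omega

end Run7.h9
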