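import Pool.Agent.Run7.h9.Defs

set_option autoImplicit false

open scoped BigOperators

namespace Run7.h9


section
variable {d : ℕ}

theorem of_update (y : Fin d → EuclideanSpace ℝ (Fin d)) (i : Fin d)
    (x : EuclideanSpace ℝ (Fin d)) :
    (Matrix.of fun a b => (Function.update y i x) a b : Matrix (Fin d) (Fin d) ℝ) =
      (Matrix.of fun a b => y a b : Matrix (Fin d) (Fin d) ℝ).updateRow i (fun j => x j) := by
  ext a b
  by_cases h : a = i
  · subst h; simp
  · simp [Matrix.updateRow_ne h, Function.update_of_ne h]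

theorem dt_update_add (y : Fin d → EuclideanSpace ℝ (Fin d)) (i : Fin d)
    (x x' : EuclideanSpace ℝ (Fin d)) :
    dt (Function.update y i (x + x')) =
      dt (Function.update y i x) + dt (Function.update y i x') := by
  unfold dt
  rw [of_update, of_update, of_update]
  have : (fun j => (x + x') j) = (fun j => x j) + (fun j => x' j) := by ext j; simp
  rw [this, Matrix.det_updateRow_add]

theorem dt_update_smul (y : Fin d → EuclideanSpace ℝ (Fin d)) (i : Fin d)
    (c : ℝ) (x : EuclideanSpace ℝ (Fin d)) :
    dt (Function.update y i (c • x)) = c * dt (Function.update y i x) := by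
  unfold dt
  rw [of_update, of_update]
  have : (fun j => (c • x) j) = c • (fun j => x j) := by ext j; simp
  rw [this, Matrix.det_updateRow_smul]

theorem dt_linearIndependent {y : Fin d → EuclideanSpace ℝ (Fin d)} (h : dt y ≠ 0) :
    LinearIndependent ℝ y := by
  have h1 : LinearIndependent ℝ (fun i => (fun j => y i j : Fin d → ℝ)) := by
    have := (Matrix.linearIndependent_rows_iff_isUnit
      (A := (Matrix.of fun a b => y a b : Matrix (Fin d) (Fin d) ℝ))).2
      ((Matrix.isUnit_iff_isUnit_det _).2 (isUnit_iff_ne_zero.2 h))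
    exact this
  exact LinearIndependent.of_comp (WithLp.linearEquiv 2 ℝ (Fin d → ℝ)).toLinearMap h1

/-- Positivity of the determinant extends from the given sets to their convex hulls. -/
theorem dt_hull (N : Fin d → Set (EuclideanSpace ℝ (Fin d))) (c : ℝ)
    (h : ∀ y : Fin d → EuclideanSpace ℝ (Fin d), (∀ i, y i ∈ N i) → 0 < c * dt y)
    (y : Fin d → EuclideanSpace ℝ (Fin d)) (hy : ∀ i, y i ∈ convexHull ℝ (N i)) :
    0 < c * dt y := by
  classical
  have key : ∀ s : Finset (Fin d), ∀ y : Fin d → EuclideanSpace ℝ (Fin d),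
      (∀ i ∈ s, y i ∈ convexHull ℝ (N i)) → (∀ i ∉ s, y i ∈ N i) → 0 < c * dt y := by
    intro s
    induction s using Finset.induction_on with
    | empty => intro y _ h2; exact h y (fun i => h2 i (by simp))
    | insert a s ha ih =>
      intro y h1 h2
      have hconv : Convex ℝ {x : EuclideanSpace ℝ (Fin d) | 0 < c * dt (Function.update y a x)} := by
        intro x hx x' hx' p q hp hq hpq
        simp only [Set.mem_ofPred_eq] at hx hx' ⊢
        rw [dt_update_add, dt_update_smul, dt_update_smul]
        have : c * (p * dt (Function.update y a x) + q * dt (Function.update y a x')) =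
          p * (c * dt (Function.update y a x)) + q * (c * dt (Function.update y a x')) := by ring
        rw [this]
        rcases hp.lt_or_eq with hp' | hp'
        · exact add_pos_of_pos_of_nonneg (mul_pos hp' hx) (mul_nonneg hq hx'.le)
        · have hq' : 0 < q := by linarith
          exact add_pos_of_nonneg_of_pos (mul_nonneg hp hx.le) (mul_pos hq' hx')
      have hsub : N a ⊆ {x : EuclideanSpace ℝ (Fin d) | 0 < c * dt (Function.update y a x)} := by
        intro x hx
        refine ih _ ?_ ?_
        · intro i hi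
          have hia : i ≠ a := fun h => ha (h ▸ hi)
          rw [Function.update_of_ne hia]
          exact h1 i (Finset.mem_insert_of_mem hi)
        · intro i hi
          by_cases hia : i = a
          · subst hia; simpa using hx
          · rw [Function.update_of_ne hia]
            exact h2 i (by simp [hia, hi])
      have := convexHull_min hsub hconv (h1 a (Finset.mem_insert_self a s))
      simpa using this
  exact key Finset.univ y (fun i _ => hy i) (fun i hi => absurd (Finset.mem_univ i) hi)

/-- Cramer's relation between `d+1` vectors of `ℝ^d`. -/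
theorem cramer_rel (y : Fin (d + 1) → EuclideanSpace ℝ (Fin d)) :
    ∑ l : Fin (d + 1), ((-1 : ℝ) ^ (l : ℕ) * dt (fun i => y (l.succAbove i))) • y l = 0 := by
  ext r
  have h0 : (0 : EuclideanSpace ℝ (Fin d)) r = 0 := rfl
  rw [h0]
  set M : Matrix (Fin (d + 1)) (Fin (d + 1)) ℝ :=
    Matrix.of fun i j => Fin.cases (y i r) (fun j' => y i j') j with hM
  have hdet : M.det = 0 := by
    apply Matrix.det_zero_of_column_eq (i := 0) (j := r.succ) (Fin.succ_ne_zero r).symm
    intro k
    simp [hM]
  rw [Matrix.det_succ_column_zero] at hdet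
  rw [← hdet]
  have : (∑ l : Fin (d + 1), ((-1 : ℝ) ^ (l : ℕ) * dt (fun i => y (l.succAbove i))) • y l) r
      = ∑ l : Fin (d + 1), ((-1 : ℝ) ^ (l : ℕ) * dt (fun i => y (l.succAbove i))) * y l r := by
    simp
  rw [this]
  refine Finset.sum_congr rfl fun l _ => ?_
  have h1 : M l 0 = y l r := by simp [hM]
  have h2 : (M.submatrix l.succAbove Fin.succ).det = dt (fun i => y (l.succAbove i)) := by
    unfold dt
    congr 1
  rw [h1, h2]; ring

/-- A point of the convex hull of a finite union lies in the convex hull of a transversal of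
the convex hulls. -/
theorem hull_group {m : ℕ} (T : Fin m → Set (EuclideanSpace ℝ (Fin d)))
    (hne : ∀ i, (T i).Nonempty) (x : EuclideanSpace ℝ (Fin d))
    (hx : x ∈ convexHull ℝ (⋃ i, T i)) :
    ∃ z : Fin m → EuclideanSpace ℝ (Fin d), (∀ i, z i ∈ convexHull ℝ (T i)) ∧
      x ∈ convexHull ℝ (Set.range z) := by
  classical
  rw [mem_convexHull_iff_exists_fintype] at hx
  obtain ⟨κ, _, w, y, hw0, hw1, hy, hxy⟩ := hx
  choose c hc using fun k => Set.mem_iUnion.1 (hy k)
  choose t ht using hne
  set Λ : Fin m → ℝ := fun i => ∑ k with c k = i, w k with hΛ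
  have hΛ0 : ∀ i, 0 ≤ Λ i := fun i => Finset.sum_nonneg fun k _ => hw0 k
  set z : Fin m → EuclideanSpace ℝ (Fin d) := fun i =>
    if Λ i = 0 then t i else (Finset.univ.filter fun k => c k = i).centerMass w y with hz
  refine ⟨z, ?_, ?_⟩
  · intro i
    by_cases h : Λ i = 0
    · simp only [hz, h, if_true]
      exact subset_convexHull ℝ _ (ht i)
    · simp only [hz, h, if_false]
      refine Finset.centerMass_mem_convexHull _ (fun k _ => hw0 k)
        (lt_of_le_of_ne (hΛ0 i) (Ne.symm h)) ?_
      intro k hk
      rw [Finset.mem_filter] at hk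
      have := hc k
      rw [hk.2] at this
      exact this
  · refine mem_convexHull_of_exists_fintype Λ z hΛ0 ?_ (fun i => Set.mem_range_self i) ?_
    · rw [← hw1]
      exact Finset.sum_fiberwise Finset.univ c w
    · rw [← hxy]
      rw [← Finset.sum_fiberwise Finset.univ c fun k => w k • y k]
      refine Finset.sum_congr rfl fun i _ => ?_
      by_cases h : Λ i = 0
      · have h0 : ∀ k ∈ Finset.univ.filter (fun k => c k = i), w k = 0 :=
          (Finset.sum_eq_zero_iff_of_nonneg (fun k _ => hw0 k)).1 h
        rw [h, zero_smul]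
        symm
        refine Finset.sum_eq_zero fun k hk => ?_
        rw [h0 k hk, zero_smul]
      · simp only [hz, h, if_false]
        rw [Finset.centerMass, smul_smul]
        rw [show (∑ k with c k = i, w k) = Λ i from rfl, mul_inv_cancel₀ h, one_smul]

open scoped Pointwise in
/-- If two systems have the same chirotope, a sign vector realised by the first (a system of
vectors) is realised by the second (a system of finite sets of vectors). -/
theorem fat {m : ℕ} (hm : d ≤ m) (v : Fin m → EuclideanSpace ℝ (Fin d))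
    (N : Fin m → Set (EuclideanSpace ℝ (Fin d))) (hfin : ∀ i, (N i).Finite)
    (hne : ∀ i, (N i).Nonempty) (σ : Fin m → ℝ) (hσ : ∀ i, σ i * σ i = 1)
    (hchi : ∀ f : Fin d → Fin m, StrictMono f → ∀ y : Fin d → EuclideanSpace ℝ (Fin d),
      (∀ i, y i ∈ N (f i)) → 0 < dt (fun i => v (f i)) * dt y)
    (φ : EuclideanSpace ℝ (Fin d) →ₗ[ℝ] ℝ) (hφ : ∀ i, 0 < σ i * φ (v i)) :
    ∃ ψ : EuclideanSpace ℝ (Fin d) →ₗ[ℝ] ℝ, ∀ i, ∀ y ∈ N i, 0 < σ i * ψ y := by
  classical
  by_contra hcon
  push Not at hcon
  set S : Set (EuclideanSpace ℝ (Fin d)) := ⋃ i, σ i • N i with hS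
  have hSfin : S.Finite := Set.finite_iUnion fun i => (hfin i).smul_set
  have h0 : (0 : EuclideanSpace ℝ (Fin d)) ∈ convexHull ℝ S := by
    by_contra h0
    obtain ⟨f, u, hf0, hf⟩ := geometric_hahn_banach_point_closed (convex_convexHull ℝ S)
      (hSfin.isClosed_convexHull ℝ) h0
    obtain ⟨i, y, hy, hle⟩ := hcon (f : EuclideanSpace ℝ (Fin d) →ₗ[ℝ] ℝ)
    have h1 : σ i • y ∈ S := Set.mem_iUnion.2 ⟨i, Set.smul_mem_smul_set hy⟩
    have h2 := hf _ (subset_convexHull ℝ S h1)
    rw [map_zero] at hf0
    rw [map_smul, smul_eq_mul] at h2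
    have h3 : σ i * f y ≤ 0 := hle
    linarith
  obtain ⟨z, hz, h0z⟩ := hull_group _ (fun i => (hne i).smul_set) _ h0
  have hz' : ∀ i, ∃ y ∈ convexHull ℝ (N i), σ i • y = z i := by
    intro i
    have := hz i
    rw [convexHull_smul] at this
    exact this
  choose y hy hyz using hz'
  -- extended chirotope condition
  have hchi' : ∀ f : Fin d → Fin m, StrictMono f →
      0 < dt (fun i => v (f i)) * dt (fun i => y (f i)) := by
    intro f hf
    exact dt_hull (fun i => N (f i)) _ (fun y' hy' => hchi f hf y' hy') _ (fun i => hy (f i))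
  obtain ⟨κ, _, p, w, hp, haff, hw, hw1, hsum⟩ := eq_pos_convex_span_of_mem_convexHull h0z
  have hp' : ∀ k, ∃ i, z i = p k := fun k => hp (Set.mem_range_self k)
  choose g hg using hp'
  have hginj : Function.Injective g := by
    intro k k' hkk
    apply haff.injective
    rw [← hg k, ← hg k', hkk]
  set J : Finset (Fin m) := Finset.univ.image g with hJ
  have hJcard : J.card = Fintype.card κ := by
    rw [hJ, Finset.card_image_of_injective _ hginj, Finset.card_univ]
  set a : Fin m → ℝ := fun i => ∑ k with g k = i, w k with ha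
  have hapos : ∀ i ∈ J, 0 < a i := by
    intro i hi
    rw [hJ, Finset.mem_image] at hi
    obtain ⟨k, _, hk⟩ := hi
    exact Finset.sum_pos (fun k _ => hw k) ⟨k, by simp [hk]⟩
  have hsumJ : ∑ i ∈ J, (a i * σ i) • y i = 0 := by
    rw [← hsum]
    have h1 : ∀ k ∈ (Finset.univ : Finset κ), g k ∈ J := fun k _ =>
      Finset.mem_image_of_mem g (Finset.mem_univ k)
    rw [← Finset.sum_fiberwise_of_maps_to h1]
    refine Finset.sum_congr rfl fun i _ => ?_
    rw [ha, Finset.sum_mul, Finset.sum_smul]
    refine Finset.sum_congr rfl fun k hk => ?_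
    rw [Finset.mem_filter] at hk
    rw [← hg k, ← hyz, hk.2, smul_smul]
  -- linear independence of any at most `d` of the vectors
  have hnotle : ¬ J.card ≤ d := by
    intro hle
    obtain ⟨J', hJJ', _, hJ'card⟩ := Finset.exists_subsuperset_card_eq
      (Finset.subset_univ J) hle (by simpa using hm)
    set f := J'.orderEmbOfFin hJ'card with hf
    have hlin : LinearIndependent ℝ (fun i => y (f i)) := by
      apply dt_linearIndependent
      intro h0
      have := hchi' f f.strictMono
      rw [h0, mul_zero] at this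
      exact lt_irrefl _ this
    have hsum' : ∑ i : Fin d, (if f i ∈ J then a (f i) * σ (f i) else 0) • y (f i) = 0 := by
      have h1 : ∑ i : Fin d, (if f i ∈ J then a (f i) * σ (f i) else 0) • y (f i) =
          ∑ i ∈ J', (if i ∈ J then a i * σ i else 0) • y i := by
        have h2 : J' = Finset.univ.map f.toEmbedding := by
          rw [hf]; simp
        conv_rhs => rw [h2]
        rw [Finset.sum_map]
        rfl
      rw [h1, ← Finset.sum_subset hJJ']
      · rw [← hsumJ]
        refine Finset.sum_congr rfl fun i hi => by rw [if_pos hi]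
      · intro i _ hi
        rw [if_neg hi, zero_smul]
    have hzero := Fintype.linearIndependent_iff.1 hlin _ hsum'
    -- `J` is nonempty
    have hκ : Nonempty κ := by
      by_contra hκ
      rw [not_nonempty_iff] at hκ
      simp at hw1
    obtain ⟨k⟩ := hκ
    have hkJ : g k ∈ J := Finset.mem_image_of_mem g (Finset.mem_univ k)
    have : g k ∈ Set.range f := by
      rw [hf, Finset.range_orderEmbOfFin]; exact hJJ' hkJ
    obtain ⟨i, hi⟩ := this
    have h3 := hzero i
    rw [hi, if_pos hkJ] at h3
    have h4 := hapos _ hkJ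
    have h5 := hσ (g k)
    rcases mul_eq_zero.1 h3 with h | h
    · linarith
    · rw [h] at h5; norm_num at h5
  have hle : J.card ≤ d + 1 := by
    rw [hJcard]
    have := haff.card_le_finrank_succ
    refine this.trans ?_
    have h2 := Submodule.finrank_le (vectorSpan ℝ (Set.range p))
    rw [finrank_euclideanSpace_fin] at h2
    omega
  have hJd : J.card = d + 1 := by omega
  set f := J.orderEmbOfFin hJd with hf
  have hmemJ : ∀ l, f l ∈ J := fun l => Finset.orderEmbOfFin_mem J hJd l
  set c : Fin (d + 1) → ℝ := fun l => a (f l) * σ (f l) with hc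
  have hcsum : ∑ l, c l • y (f l) = 0 := by
    rw [← hsumJ]
    have h2 : J = Finset.univ.map f.toEmbedding := by rw [hf]; simp
    conv_rhs => rw [h2]
    rw [Finset.sum_map]
    rfl
  have hcσ : ∀ l, 0 < c l * σ (f l) := by
    intro l
    have h1 := hapos _ (hmemJ l)
    have h2 := hσ (f l)
    rw [hc]
    simp only
    rw [mul_assoc, h2, mul_one]
    exact h1
  set e : Fin (d + 1) → ℝ := fun l => (-1 : ℝ) ^ (l : ℕ) * dt (fun i => y (f (l.succAbove i))) with he
  set e' : Fin (d + 1) → ℝ := fun l => (-1 : ℝ) ^ (l : ℕ) * dt (fun i => v (f (l.succAbove i))) with he'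
  have hee' : ∀ l, 0 < e l * e' l := by
    intro l
    have h1 := hchi' (fun i => f (l.succAbove i))
      (f.strictMono.comp (Fin.strictMono_succAbove l))
    rw [he, he']
    simp only
    have h2 : (-1 : ℝ) ^ (l : ℕ) * (-1 : ℝ) ^ (l : ℕ) = 1 := by
      rw [← mul_pow]; norm_num
    calc (0 : ℝ) < _ := h1
      _ = ((-1 : ℝ) ^ (l : ℕ) * (-1 : ℝ) ^ (l : ℕ)) * (dt (fun i => v (f (l.succAbove i))) *
          dt (fun i => y (f (l.succAbove i)))) := by rw [h2, one_mul]
      _ = _ := by ring
  have hesum : ∑ l, e l • y (f l) = 0 := cramer_rel (fun l => y (f l))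
  have he'sum : ∑ l, e' l • v (f l) = 0 := cramer_rel (fun l => v (f l))
  have he0 : ∀ l, e l ≠ 0 := fun l h => by
    have := hee' l; rw [h, zero_mul] at this; exact lt_irrefl _ this
  set μ : ℝ := c 0 / e 0 with hμ
  have hceq : ∀ l, c l = μ * e l := by
    have hlin : LinearIndependent ℝ (fun i : Fin d => y (f i.succ)) := by
      apply dt_linearIndependent
      intro h0
      have := hchi' (fun i => f i.succ) (f.strictMono.comp (Fin.strictMono_succ))
      rw [h0, mul_zero] at this
      exact lt_irrefl _ this
    have h1 : ∑ l, (c l - μ * e l) • y (f l) = 0 := by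
      have : ∑ l, (c l - μ * e l) • y (f l) = ∑ l, c l • y (f l) - μ • ∑ l, e l • y (f l) := by
        rw [Finset.smul_sum, ← Finset.sum_sub_distrib]
        refine Finset.sum_congr rfl fun l _ => ?_
        rw [sub_smul, smul_smul]
      rw [this, hcsum, hesum]; simp
    rw [Fin.sum_univ_succ] at h1
    have h2 : c 0 - μ * e 0 = 0 := by
      rw [hμ, div_mul_cancel₀ _ (he0 0), sub_self]
    rw [h2, zero_smul, zero_add] at h1
    have h3 := Fintype.linearIndependent_iff.1 hlin _ h1
    intro l
    refine Fin.cases ?_ ?_ l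
    · linarith
    · intro i; have := h3 i; linarith
  -- final sign contradiction
  have hterm : ∀ l, 0 < μ * (e' l * φ (v (f l))) := by
    intro l
    have h1 := hcσ l
    rw [hceq l] at h1
    have h2 := hee' l
    have h3 := hφ (f l)
    have h4 : 0 < (μ * e l * σ (f l)) * (e l * e' l) * (σ (f l) * φ (v (f l))) :=
      mul_pos (mul_pos h1 h2) h3
    have h5 : (μ * e l * σ (f l)) * (e l * e' l) * (σ (f l) * φ (v (f l))) =
        (e l) ^ 2 * (μ * (e' l * φ (v (f l)))) * (σ (f l) * σ (f l)) := by ring
    rw [h5, hσ, mul_one] at h4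
    have h6 := he0 l
    exact (mul_pos_iff_of_pos_left (by positivity)).1 h4
  have hsum0 : ∑ l, μ * (e' l * φ (v (f l))) = 0 := by
    have h1 := congrArg φ he'sum
    rw [map_sum, map_zero] at h1
    rw [← Finset.mul_sum]
    have : ∑ l, e' l * φ (v (f l)) = 0 := by
      rw [← h1]
      refine Finset.sum_congr rfl fun l _ => ?_
      rw [map_smul, smul_eq_mul]
    rw [this, mul_zero]
  have hpos : 0 < ∑ l, μ * (e' l * φ (v (f l))) :=
    Finset.sum_pos (fun l _ => hterm l) Finset.univ_nonempty
  linarith

end

end Run7.h9
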