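import Pool.Agent.Run7.h9.Defs
import Pool.Agent.Run7.h9.Fat

set_option autoImplicit false

open scoped BigOperators

namespace Run7.h9

variable {d : ℕ}

/-- Functionals on `ℝ^d`. -/
abbrev Fl (d : ℕ) := EuclideanSpace ℝ (Fin d) →ₗ[ℝ] ℝ

open Classical in
/-- Maximal number of cells of a pruned binary space partition of `H` following `T`, all leaves
being at depth at least `r`. -/
noncomputable def FM : ℕ → HSet d → Set (Fl d) → ℕ
  | r, HSet.pt _, H => if r = 0 ∧ H.Nonempty then 1 else 0
  | r, HSet.join v A B, H =>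
      max (max (FM (r - 1) A H) (FM (r - 1) B H))
        (FM (r - 1) A {φ ∈ H | φ v < 0} + FM (r - 1) B {φ ∈ H | 0 < φ v})

theorem points_nonempty (T : HSet d) : T.points.Nonempty := by
  classical
  induction T with
  | pt x => simp [HSet.points]
  | join v A B ihA ihB => simp only [HSet.points]; exact ihA.mono Finset.subset_union_left

theorem branches_nonempty (T : HSet d) : T.branches.Nonempty := by
  induction T with
  | pt x => simp [HSet.branches]
  | join v A B ihA ihB =>
    obtain ⟨L, hL⟩ := ihA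
    exact ⟨_, L, Or.inl hL, rfl⟩

/-- Perturb a functional so that it vanishes on none of the given nonzero vectors. -/
theorem perturb {ι : Type*} [Finite ι] (v : ι → EuclideanSpace ℝ (Fin d)) (hv : ∀ i, v i ≠ 0)
    (φ : Fl d) : ∃ φ' : Fl d, (∀ i, φ' (v i) ≠ 0) ∧ (∀ i, 0 < φ (v i) → 0 < φ' (v i)) ∧
      (∀ i, φ (v i) < 0 → φ' (v i) < 0) := by
  classical
  obtain ⟨ψ, hψ⟩ := Module.exists_dual_forall_apply_ne_zero (K := ℝ) v hv
  have key : ∃ ε : ℝ, 0 < ε ∧ ∀ i, φ (v i) ≠ 0 → ε * |ψ (v i)| < |φ (v i)| := by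
    have hfin : (Set.range fun i => if φ (v i) = 0 then (1 : ℝ) else |φ (v i)| / |ψ (v i)|).Finite :=
      Set.finite_range _
    obtain ⟨ε, hε, hlt⟩ : ∃ ε : ℝ, 0 < ε ∧
        ∀ x ∈ (Set.range fun i => if φ (v i) = 0 then (1 : ℝ) else |φ (v i)| / |ψ (v i)|), ε < x := by
      have hpos : ∀ x ∈ (Set.range fun i => if φ (v i) = 0 then (1 : ℝ) else |φ (v i)| / |ψ (v i)|),
          0 < x := by
        rintro x ⟨i, rfl⟩
        by_cases h : φ (v i) = 0
        · simp [h]
        · simp only [h, if_false]
          exact div_pos (abs_pos.2 h) (abs_pos.2 (hψ i))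
      rcases (Set.range fun i => if φ (v i) = 0 then (1 : ℝ) else |φ (v i)| / |ψ (v i)|).eq_empty_or_nonempty
        with he | hne
      · exact ⟨1, one_pos, by rw [he]; simp⟩
      · obtain ⟨m, hm, hmin⟩ := Set.exists_min_image _ id hfin hne
        refine ⟨m / 2, half_pos (hpos m hm), fun x hx => ?_⟩
        have := hmin x hx
        simp only [id] at this
        linarith [half_lt_self (hpos m hm)]
    refine ⟨ε, hε, fun i hi => ?_⟩
    have := hlt _ ⟨i, rfl⟩
    simp only [hi, if_false] at this
    rwa [lt_div_iff₀ (abs_pos.2 (hψ i))] at this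
  obtain ⟨ε, hε, hlt⟩ := key
  refine ⟨φ + ε • ψ, ?_, ?_, ?_⟩
  · intro i
    by_cases h : φ (v i) = 0
    · simp [h, hε.ne', hψ i]
    · intro h0
      have h1 := hlt i h
      have h2 : φ (v i) = -(ε * ψ (v i)) := by
        simp only [LinearMap.add_apply, LinearMap.smul_apply, smul_eq_mul] at h0
        linarith
      rw [h2, abs_neg, abs_mul, abs_of_pos hε] at h1
      exact lt_irrefl _ h1
  · intro i h
    have h1 := hlt i h.ne'
    simp only [LinearMap.add_apply, LinearMap.smul_apply, smul_eq_mul]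
    rw [abs_of_pos h] at h1
    have h2 : -(ε * |ψ (v i)|) ≤ ε * ψ (v i) := by
      rw [← mul_neg]; exact mul_le_mul_of_nonneg_left (neg_abs_le _) hε.le
    linarith
  · intro i h
    have h1 := hlt i h.ne
    simp only [LinearMap.add_apply, LinearMap.smul_apply, smul_eq_mul]
    rw [abs_of_neg h] at h1
    have h2 : ε * ψ (v i) ≤ ε * |ψ (v i)| := mul_le_mul_of_nonneg_left (le_abs_self _) hε.le
    linarith

/-- Leaf step: a sign condition on the directions of a branch is realised on its differences. -/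
theorem leaf_real (L : List (Split d)) (hL : Follows L) (hd : d ≤ L.length)
    (hne : ∀ s ∈ L, s.left.Nonempty ∧ s.right.Nonempty) (φ : Fl d) :
    ∃ ψ : Fl d, ∀ s ∈ L,
      (0 < φ s.dir → ∀ a ∈ s.left, ∀ b ∈ s.right, 0 < ψ (b - a)) ∧
      (φ s.dir < 0 → ∀ a ∈ s.left, ∀ b ∈ s.right, ψ (b - a) < 0) := by
  classical
  rcases Nat.eq_zero_or_pos d with h0 | hdpos
  · subst h0
    refine ⟨0, fun s _ => ⟨fun h => ?_, fun h => ?_⟩⟩
    · have : s.dir = 0 := Subsingleton.elim _ _
      rw [this, map_zero] at h; exact absurd h (lt_irrefl _)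
    · have : s.dir = 0 := Subsingleton.elim _ _
      rw [this, map_zero] at h; exact absurd h (lt_irrefl _)
  -- every direction of the branch is nonzero
  have hnz : ∀ i : Fin L.length, (L.get i).dir ≠ 0 := by
    intro i h0
    obtain ⟨J, hJ, hJ', hJcard⟩ := Finset.exists_subsuperset_card_eq
      (Finset.subset_univ {i}) (show ({i} : Finset (Fin L.length)).card ≤ d by
        rw [Finset.card_singleton]; exact hdpos) (by simpa using hd)
    set f := J.orderEmbOfFin hJcard with hf
    have hi : i ∈ Set.range f := by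
      rw [hf, Finset.range_orderEmbOfFin]; exact hJ (Finset.mem_singleton_self i)
    obtain ⟨j, hj⟩ := hi
    choose a ha b hb using fun k : Fin d =>
      (show ∃ a, a ∈ (L.get (f k)).left ∧ ∃ b, b ∈ (L.get (f k)).right from by
        obtain ⟨⟨a, ha⟩, ⟨b, hb⟩⟩ := hne _ (List.get_mem L (f k))
        exact ⟨a, ha, b, hb⟩)
    have := hL f f.strictMono a b ha hb
    have hlin := dt_linearIndependent (y := fun i => (L.get (f i)).dir) (by
      intro h; unfold Run7.h9.dt at h this; rw [h, zero_mul] at this; exact lt_irrefl _ this)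
    exact hlin.ne_zero j (by rw [hj]; exact h0)
  obtain ⟨φ', h1, h2, h3⟩ := perturb (fun i : Fin L.length => (L.get i).dir) hnz φ
  set σ : Fin L.length → ℝ := fun i => if 0 < φ' (L.get i).dir then 1 else -1 with hσ
  obtain ⟨ψ, hψ⟩ := fat hd (fun i => (L.get i).dir)
    (fun i => {y | ∃ a ∈ (L.get i).left, ∃ b ∈ (L.get i).right, y = b - a})
    (fun i => by
      have : {y | ∃ a ∈ (L.get i).left, ∃ b ∈ (L.get i).right, y = b - a} =
        (fun p : EuclideanSpace ℝ (Fin d) × EuclideanSpace ℝ (Fin d) => p.2 - p.1) ''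
          (((L.get i).left ×ˢ (L.get i).right : Finset _) : Set _) := by
        ext y; simp only [Set.mem_ofPred_eq, Set.mem_image, Finset.mem_coe, Finset.mem_product,
          Prod.exists]
        constructor
        · rintro ⟨a, ha, b, hb, rfl⟩; exact ⟨a, b, ⟨ha, hb⟩, rfl⟩
        · rintro ⟨a, b, ⟨ha, hb⟩, rfl⟩; exact ⟨a, ha, b, hb, rfl⟩
      rw [this]
      exact (Finset.finite_toSet _).image _)
    (fun i => by
      obtain ⟨⟨a, ha⟩, ⟨b, hb⟩⟩ := hne _ (List.get_mem L i)
      exact ⟨b - a, a, ha, b, hb, rfl⟩)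
    σ (fun i => by simp only [hσ]; split_ifs <;> norm_num)
    (fun f hf y hy => by
      choose a ha b hb hab using hy
      have := hL f hf a b ha hb
      have h : y = fun i => b i - a i := by ext1 i; exact hab i
      rw [h]; exact this)
    φ' (fun i => by
      simp only [hσ]
      split_ifs with h
      · simpa using h
      · have : φ' (L.get i).dir < 0 := lt_of_le_of_ne (not_lt.1 h) (h1 i)
        linarith)
  refine ⟨ψ, fun s hs => ?_⟩
  obtain ⟨i, rfl⟩ := List.get_of_mem hs
  refine ⟨fun h a ha b hb => ?_, fun h a ha b hb => ?_⟩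
  · have h4 := hψ i (b - a) ⟨a, ha, b, hb, rfl⟩
    have h5 := h2 i h
    simp only [hσ, h5, if_true, one_mul] at h4
    exact h4
  · have h4 := hψ i (b - a) ⟨a, ha, b, hb, rfl⟩
    have h5 := h3 i h
    simp only [hσ, not_lt.2 h5.le, if_false] at h4
    linarith

/-- Sign condition of a functional at a split with a chosen side. -/
def Side (φ : Fl d) (p : Split d × Bool) : Prop :=
  if p.2 = true then 0 < φ p.1.dir else φ p.1.dir < 0

/-- Sign condition of a functional on the differences of a split with a chosen side. -/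
def FatSide (ψ : Fl d) (p : Split d × Bool) : Prop :=
  ∀ a ∈ p.1.left, ∀ b ∈ p.1.right, if p.2 = true then 0 < ψ (b - a) else ψ (b - a) < 0

/-- A pruned binary space partition gives points in convex position. -/
theorem geo (T : HSet d) : ∀ (L0 : List (Split d)) (r : ℕ) (Λ : List (Split d × Bool))
    (H : Set (Fl d)), (∀ L ∈ T.branches, Follows (L0 ++ L)) → d ≤ L0.length + r →
    (∀ s ∈ L0, s.left.Nonempty ∧ s.right.Nonempty) →
    (∀ p ∈ Λ, p.1 ∈ L0) → (∀ φ ∈ H, ∀ p ∈ Λ, Side φ p) →
    ∃ Y ⊆ T.points, Y.card = FM r T H ∧ ∀ y ∈ Y, ∃ ψ : Fl d, (∀ p ∈ Λ, FatSide ψ p) ∧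
      ∀ z ∈ Y, z ≠ y → ψ z < ψ y := by
  classical
  induction T with
  | pt x =>
    intro L0 r Λ H hF hr hne hΛ hH
    by_cases hc : r = 0 ∧ H.Nonempty
    · obtain ⟨hr0, φ, hφ⟩ := hc
      subst hr0
      have hF' := hF [] (by simp [HSet.branches])
      rw [List.append_nil] at hF'
      obtain ⟨ψ, hψ⟩ := leaf_real L0 hF' (by omega) hne φ
      refine ⟨{x}, by simp [HSet.points], ?_, ?_⟩
      · simp [FM, show H.Nonempty from ⟨φ, hφ⟩]
      · intro y hy
        rw [Finset.mem_singleton] at hy
        subst hy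
        refine ⟨ψ, ?_, ?_⟩
        · intro p hp a ha b hb
          have h1 := hH φ hφ p hp
          have h2 := hψ p.1 (hΛ p hp)
          unfold Side at h1
          split_ifs with hb'
          · rw [if_pos hb'] at h1; exact h2.1 h1 a ha b hb
          · rw [if_neg hb'] at h1; exact h2.2 h1 a ha b hb
        · intro z hz hne'
          rw [Finset.mem_singleton] at hz
          exact absurd hz hne'
    · refine ⟨∅, by simp, ?_, by simp⟩
      rw [FM, if_neg hc]; simp
  | join v A B ihA ihB =>
    intro L0 r Λ H hF hr hne hΛ hH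
    set s : Split d := ⟨v, A.points, B.points⟩ with hs
    have hFA : ∀ L ∈ A.branches, Follows ((L0 ++ [s]) ++ L) := by
      intro L hL
      have := hF (s :: L) ⟨L, Or.inl hL, rfl⟩
      rwa [List.append_assoc, List.singleton_append]
    have hFB : ∀ L ∈ B.branches, Follows ((L0 ++ [s]) ++ L) := by
      intro L hL
      have := hF (s :: L) ⟨L, Or.inr hL, rfl⟩
      rwa [List.append_assoc, List.singleton_append]
    have hr' : d ≤ (L0 ++ [s]).length + (r - 1) := by
      rw [List.length_append, List.length_singleton]; omega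
    have hne' : ∀ t ∈ L0 ++ [s], t.left.Nonempty ∧ t.right.Nonempty := by
      intro t ht
      rw [List.mem_append, List.mem_singleton] at ht
      rcases ht with ht | ht
      · exact hne t ht
      · rw [ht]; exact ⟨points_nonempty A, points_nonempty B⟩
    have hΛ' : ∀ p ∈ Λ, p.1 ∈ L0 ++ [s] := fun p hp => List.mem_append_left _ (hΛ p hp)
    rw [FM]
    rcases le_total (max (FM (r - 1) A H) (FM (r - 1) B H))
      (FM (r - 1) A {φ ∈ H | φ v < 0} + FM (r - 1) B {φ ∈ H | 0 < φ v}) with hcase | hcase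
    · rw [max_eq_right hcase]
      obtain ⟨YA, hYA, hcA, hA⟩ := ihA (L0 ++ [s]) (r - 1) ((s, false) :: Λ) {φ ∈ H | φ v < 0}
        hFA hr' hne'
        (by
          intro p hp
          rcases List.mem_cons.1 hp with rfl | hp
          · simp
          · exact hΛ' p hp)
        (by
          intro φ hφ p hp
          rcases List.mem_cons.1 hp with rfl | hp
          · simpa [Side, hs] using hφ.2
          · exact hH φ hφ.1 p hp)
      obtain ⟨YB, hYB, hcB, hB⟩ := ihB (L0 ++ [s]) (r - 1) ((s, true) :: Λ) {φ ∈ H | 0 < φ v}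
        hFB hr' hne'
        (by
          intro p hp
          rcases List.mem_cons.1 hp with rfl | hp
          · simp
          · exact hΛ' p hp)
        (by
          intro φ hφ p hp
          rcases List.mem_cons.1 hp with rfl | hp
          · simpa [Side, hs] using hφ.2
          · exact hH φ hφ.1 p hp)
      have hAB : ∀ y ∈ YA, ∀ z ∈ B.points, ∃ ψ : Fl d, ψ z < ψ y ∧ (∀ p ∈ Λ, FatSide ψ p) ∧
          ∀ z' ∈ YA, z' ≠ y → ψ z' < ψ y := by
        intro y hy z hz
        obtain ⟨ψ, h1, h2⟩ := hA y hy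
        refine ⟨ψ, ?_, fun p hp => h1 p (List.mem_cons_of_mem _ hp), h2⟩
        have := h1 _ List.mem_cons_self y (hYA hy) z hz
        simp only [Bool.false_eq_true, if_false, map_sub] at this
        linarith
      refine ⟨YA ∪ YB, ?_, ?_, ?_⟩
      · simp only [HSet.points]
        exact Finset.union_subset_union hYA hYB
      · rw [Finset.card_union_of_disjoint, hcA, hcB]
        rw [Finset.disjoint_left]
        intro y hyA hyB
        obtain ⟨ψ, h1, _⟩ := hAB y hyA y (hYB hyB)
        exact lt_irrefl _ h1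
      · intro y hy
        rcases Finset.mem_union.1 hy with hyA | hyB
        · obtain ⟨ψ, h1, h2⟩ := hA y hyA
          refine ⟨ψ, fun p hp => h1 p (List.mem_cons_of_mem _ hp), ?_⟩
          intro z hz hzy
          rcases Finset.mem_union.1 hz with hzA | hzB
          · exact h2 z hzA hzy
          · have := h1 _ List.mem_cons_self y (hYA hyA) z (hYB hzB)
            simp only [Bool.false_eq_true, if_false, map_sub] at this
            linarith
        · obtain ⟨ψ, h1, h2⟩ := hB y hyB
          refine ⟨ψ, fun p hp => h1 p (List.mem_cons_of_mem _ hp), ?_⟩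
          intro z hz hzy
          rcases Finset.mem_union.1 hz with hzA | hzB
          · have := h1 _ List.mem_cons_self z (hYA hzA) y (hYB hyB)
            simp only [if_true, map_sub] at this
            linarith
          · exact h2 z hzB hzy
    · rw [max_eq_left hcase]
      rcases le_total (FM (r - 1) A H) (FM (r - 1) B H) with h | h
      · rw [max_eq_right h]
        obtain ⟨Y, hY, hc, hψ⟩ := ihB (L0 ++ [s]) (r - 1) Λ H hFB hr' hne' hΛ' hH
        exact ⟨Y, hY.trans (by simp only [HSet.points]; exact Finset.subset_union_right), hc, hψ⟩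
      · rw [max_eq_left h]
        obtain ⟨Y, hY, hc, hψ⟩ := ihA (L0 ++ [s]) (r - 1) Λ H hFA hr' hne' hΛ' hH
        exact ⟨Y, hY.trans (by simp only [HSet.points]; exact Finset.subset_union_left), hc, hψ⟩

/-- Convex position from exposing functionals. -/
theorem convPos_of_exposed (Y : Finset (EuclideanSpace ℝ (Fin d)))
    (h : ∀ y ∈ Y, ∃ ψ : Fl d, ∀ z ∈ Y, z ≠ y → ψ z < ψ y) : ConvPos Y := by
  classical
  intro p hp hmem
  obtain ⟨ψ, hψ⟩ := h p hp
  have hconv : Convex ℝ {z : EuclideanSpace ℝ (Fin d) | ψ z < ψ p} :=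
    convex_halfSpace_lt ψ.isLinear _
  have hsub : ((Y.erase p : Finset (EuclideanSpace ℝ (Fin d))) :
      Set (EuclideanSpace ℝ (Fin d))) ⊆ {z | ψ z < ψ p} := by
    intro z hz
    rw [Finset.mem_coe, Finset.mem_erase] at hz
    exact hψ z hz.2 hz.1
  have hlt : ψ p < ψ p := convexHull_min hsub hconv hmem
  exact lt_irrefl _ hlt

theorem ConvPos.mono {Y Y' : Finset (EuclideanSpace ℝ (Fin d))} (h : ConvPos Y) (hs : Y' ⊆ Y) :
    ConvPos Y' := by
  intro p hp hmem
  refine h p (hs hp) (convexHull_mono ?_ hmem)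
  exact_mod_cast Finset.erase_subset_erase p hs

/-- Main geometric consequence: a hierarchical set contains `FM d T H` points in convex position. -/
theorem exists_convPos (T : HSet d) (hT : Hierarchical T) (H : Set (Fl d)) :
    ∃ Y ⊆ T.points, Y.card = FM d T H ∧ ConvPos Y := by
  obtain ⟨Y, hY, hc, hψ⟩ := geo T [] d [] H (by simpa [Hierarchical] using hT) (by simp) (by simp) (by simp)
    (by simp)
  refine ⟨Y, hY, hc, convPos_of_exposed Y fun y hy => ?_⟩
  obtain ⟨ψ, _, h⟩ := hψ y hy
  exact ⟨ψ, h⟩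

end Run7.h9
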