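import Pool.Agent.Run7.h9.Core

set_option autoImplicit false

open scoped BigOperators

namespace Run7.h9

variable {d : ℕ}

/-- Number of sign words realised by `H` on a list of vectors. -/
noncomputable def Cn : List (EuclideanSpace ℝ (Fin d)) → Set (Fl d) → ℕ
  | [], H => open Classical in if H.Nonempty then 1 else 0
  | v :: l, H => Cn l {φ ∈ H | φ v < 0} + Cn l {φ ∈ H | 0 < φ v}

open Classical in
/-- The sign words realised by `H` on a list of vectors. -/
noncomputable def RW : List (EuclideanSpace ℝ (Fin d)) → Set (Fl d) → Finset (List Bool)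
  | [], H => if H.Nonempty then {[]} else ∅
  | v :: l, H => (RW l {φ ∈ H | φ v < 0}).image (List.cons false) ∪
      (RW l {φ ∈ H | 0 < φ v}).image (List.cons true)

theorem card_RW (l : List (EuclideanSpace ℝ (Fin d))) : ∀ H : Set (Fl d), (RW l H).card = Cn l H := by
  classical
  induction l with
  | nil => intro H; simp only [RW, Cn]; split_ifs <;> simp
  | cons v l ih =>
    intro H
    rw [RW, Cn, Finset.card_union_of_disjoint, Finset.card_image_of_injective,
      Finset.card_image_of_injective, ih, ih]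
    · intro a b h; simpa using h
    · intro a b h; simpa using h
    · rw [Finset.disjoint_left]
      intro x hx hx'
      rw [Finset.mem_image] at hx hx'
      obtain ⟨a, _, rfl⟩ := hx
      obtain ⟨b, _, hb⟩ := hx'
      simp at hb

/-- The sign relation between a sign and a vector. -/
def SRel (φ : Fl d) (b : Bool) (v : EuclideanSpace ℝ (Fin d)) : Prop :=
  if b = true then 0 < φ v else φ v < 0

theorem mem_RW (l : List (EuclideanSpace ℝ (Fin d))) : ∀ (H : Set (Fl d)) (σ : List Bool),
    σ ∈ RW l H ↔ ∃ φ ∈ H, List.Forall₂ (SRel φ) σ l := by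
  classical
  induction l with
  | nil =>
    intro H σ
    simp only [RW, List.forall₂_nil_right_iff]
    split_ifs with h
    · rw [Finset.mem_singleton]
      constructor
      · rintro rfl; obtain ⟨φ, hφ⟩ := h; exact ⟨φ, hφ, rfl⟩
      · rintro ⟨_, _, h⟩; exact h
    · simp only [Finset.notMem_empty, false_iff]
      rintro ⟨φ, hφ, _⟩
      exact h ⟨φ, hφ⟩
  | cons v l ih =>
    intro H σ
    rw [RW, Finset.mem_union, Finset.mem_image, Finset.mem_image]
    constructor
    · rintro (⟨τ, hτ, rfl⟩ | ⟨τ, hτ, rfl⟩)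
      · obtain ⟨φ, hφ, h⟩ := (ih _ _).1 hτ
        exact ⟨φ, hφ.1, List.Forall₂.cons (by simpa [SRel] using hφ.2) h⟩
      · obtain ⟨φ, hφ, h⟩ := (ih _ _).1 hτ
        exact ⟨φ, hφ.1, List.Forall₂.cons (by simpa [SRel] using hφ.2) h⟩
    · rintro ⟨φ, hφ, h⟩
      rcases List.forall₂_cons_right_iff.1 h with ⟨b, τ, hb, hτ, rfl⟩
      cases b with
      | false => exact Or.inl ⟨τ, (ih _ _).2 ⟨φ, ⟨hφ, by simpa [SRel] using hb⟩, hτ⟩, rfl⟩
      | true => exact Or.inr ⟨τ, (ih _ _).2 ⟨φ, ⟨hφ, by simpa [SRel] using hb⟩, hτ⟩, rfl⟩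

theorem small_perturb (φ ψ : Fl d) (l : List (EuclideanSpace ℝ (Fin d))) :
    ∃ ε : ℝ, 0 < ε ∧ ∀ t : ℝ, |t| ≤ ε → ∀ u ∈ l,
      (0 < φ u → 0 < (φ + t • ψ) u) ∧ (φ u < 0 → (φ + t • ψ) u < 0) := by
  induction l with
  | nil => exact ⟨1, one_pos, by simp⟩
  | cons u l ih =>
    obtain ⟨ε, hε, h⟩ := ih
    have h1 : (0 : ℝ) < |ψ u| + 1 := by positivity
    by_cases h0 : φ u = 0
    · refine ⟨ε, hε, fun t ht w hw => ?_⟩
      rcases List.mem_cons.1 hw with rfl | hw
      · rw [h0]; simp
      · exact h t ht w hw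
    · have h2 : 0 < |φ u| / (2 * (|ψ u| + 1)) := by
        have := abs_pos.2 h0; positivity
      refine ⟨min ε (|φ u| / (2 * (|ψ u| + 1))), lt_min hε h2, fun t ht w hw => ?_⟩
      rcases List.mem_cons.1 hw with rfl | hw
      · have h3 : |t| ≤ |φ w| / (2 * (|ψ w| + 1)) := ht.trans (min_le_right _ _)
        rw [le_div_iff₀ (by positivity)] at h3
        have h4 : |t * ψ w| ≤ |φ w| / 2 := by
          rw [abs_mul]
          nlinarith [abs_nonneg t, abs_nonneg (ψ w)]
        have h5 := abs_le.1 h4
        simp only [LinearMap.add_apply, LinearMap.smul_apply, smul_eq_mul]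
        constructor
        · intro h6; rw [abs_of_pos h6] at h5; linarith [h5.1]
        · intro h6; rw [abs_of_neg h6] at h5; linarith [h5.2]
      · exact h t (ht.trans (min_le_left _ _)) w hw

/-- A lower bound for the number of cells of an arrangement in general position. -/
def cells : ℕ → ℕ → ℕ
  | 0, _ => 1
  | _ + 1, 0 => 0
  | m + 1, e + 1 => cells m (e + 1) + cells m e

theorem choose_le_cells (m : ℕ) : ∀ e : ℕ, m.choose e ≤ cells m (e + 1) := by
  induction m with
  | zero => intro e; cases e <;> simp [cells]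
  | succ m ih =>
    intro e
    cases e with
    | zero =>
      simp only [cells, Nat.choose_zero_right]
      have := ih 0
      rw [Nat.choose_zero_right] at this
      omega
    | succ e =>
      rw [Nat.choose_succ_succ', cells]
      have h1 := ih e
      have h2 := ih (e + 1)
      omega

/-- General position of a list of vectors relative to a space of functionals. -/
def GPV : List (EuclideanSpace ℝ (Fin d)) → Submodule ℝ (Fl d) → Prop
  | [], _ => True
  | v :: l, V => (V ≠ ⊥ → ∃ ψ ∈ V, ψ v ≠ 0) ∧ GPV l V ∧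
      GPV l (V ⊓ LinearMap.ker (Module.Dual.eval ℝ (EuclideanSpace ℝ (Fin d)) v))

theorem finrank_inf_ker (V : Submodule ℝ (Fl d)) (v : EuclideanSpace ℝ (Fin d))
    (h : ∃ ψ ∈ V, ψ v ≠ 0) : Module.finrank ℝ V =
      Module.finrank ℝ (V ⊓ LinearMap.ker (Module.Dual.eval ℝ (EuclideanSpace ℝ (Fin d)) v) :
        Submodule ℝ (Fl d)) + 1 := by
  set f : Fl d →ₗ[ℝ] ℝ := Module.Dual.eval ℝ (EuclideanSpace ℝ (Fin d)) v with hf
  have h1 := LinearMap.finrank_range_add_finrank_ker (K := ℝ) (V := V) (V₂ := ℝ)
    (f.domRestrict V)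
  have h2 : LinearMap.range (f.domRestrict V) = ⊤ := by
    rw [LinearMap.range_eq_top]
    obtain ⟨ψ, hψ, hne⟩ := h
    intro c
    refine ⟨(c / ψ v) • ⟨ψ, hψ⟩, ?_⟩
    rw [map_smul, smul_eq_mul]
    have : (f.domRestrict V) ⟨ψ, hψ⟩ = ψ v := rfl
    rw [this, div_mul_cancel₀ _ hne]
  rw [h2, finrank_top, Module.finrank_self] at h1
  have h3 : LinearMap.ker (f.domRestrict V) = Submodule.comap V.subtype (LinearMap.ker f) := by
    ext x; simp [LinearMap.domRestrict]
  have h4 : Module.finrank ℝ (LinearMap.ker (f.domRestrict V)) =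
      Module.finrank ℝ (V ⊓ LinearMap.ker f : Submodule ℝ (Fl d)) := by
    rw [h3, ← Submodule.map_comap_subtype]
    exact (Submodule.finrank_map_subtype_eq V _).symm
  omega

theorem cells_le_Cn (l : List (EuclideanSpace ℝ (Fin d))) : ∀ V : Submodule ℝ (Fl d), GPV l V →
    cells l.length (Module.finrank ℝ V) ≤ Cn l (V : Set (Fl d)) := by
  classical
  induction l with
  | nil =>
    intro V _
    simp only [List.length_nil, cells, Cn]
    rw [if_pos V.nonempty]
  | cons v l ih =>
    intro V hV
    obtain ⟨h1, h2, h3⟩ := hV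
    by_cases hbot : V = ⊥
    · rw [hbot, finrank_bot]; simp [cells]
    · obtain ⟨ψ, hψ, hψv⟩ := h1 hbot
      rw [finrank_inf_ker V v ⟨ψ, hψ, hψv⟩, List.length_cons, cells, Cn,
        ← finrank_inf_ker V v ⟨ψ, hψ, hψv⟩]
      have h4 := ih V h2
      have h5 := ih _ h3
      set K : Submodule ℝ (Fl d) := V ⊓ LinearMap.ker (Module.Dual.eval ℝ
        (EuclideanSpace ℝ (Fin d)) v) with hK
      rw [← card_RW] at h4 h5
      rw [← card_RW, ← card_RW, ← Finset.card_union_add_card_inter]
      have hpm : ∀ φ ∈ V, φ v = 0 → ∀ σ, List.Forall₂ (SRel φ) σ l →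
          (σ ∈ RW l {φ ∈ (V : Set (Fl d)) | φ v < 0} ∧ σ ∈ RW l {φ ∈ (V : Set (Fl d)) | 0 < φ v}) := by
        intro φ hφ hφv σ hσ
        obtain ⟨ε, hε, hεl⟩ := small_perturb φ ψ l
        have hgen : ∀ t : ℝ, |t| ≤ ε → List.Forall₂ (SRel (φ + t • ψ)) σ l := by
          intro t ht
          have := hεl t ht
          clear h4 h5 ih h2 h3 hεl
          induction hσ with
          | nil => exact List.Forall₂.nil
          | @cons b u σ' l' hb _ ih' =>
            refine List.Forall₂.cons ?_ (ih' fun w hw => this w (List.mem_cons_of_mem _ hw))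
            have h6 := this u List.mem_cons_self
            unfold SRel at hb ⊢
            split_ifs with hb'
            · rw [if_pos hb'] at hb; exact h6.1 hb
            · rw [if_neg hb'] at hb; exact h6.2 hb
        have hval : ∀ t : ℝ, (φ + t • ψ) v = t * ψ v := by
          intro t; simp [hφv]
        have hmem : ∀ t : ℝ, (φ + t • ψ) ∈ V := fun t => V.add_mem hφ (V.smul_mem t hψ)
        rcases lt_or_gt_of_ne hψv with hneg | hpos
        · constructor
          · refine (mem_RW _ _ _).2 ⟨φ + ε • ψ, ⟨hmem _, ?_⟩, hgen ε (abs_of_pos hε).le⟩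
            rw [hval]; exact mul_neg_of_pos_of_neg hε hneg
          · refine (mem_RW _ _ _).2 ⟨φ + (-ε) • ψ, ⟨hmem _, ?_⟩,
              hgen (-ε) (by rw [abs_neg, abs_of_pos hε])⟩
            rw [hval]; exact mul_pos_of_neg_of_neg (neg_neg_of_pos hε) hneg
        · constructor
          · refine (mem_RW _ _ _).2 ⟨φ + (-ε) • ψ, ⟨hmem _, ?_⟩,
              hgen (-ε) (by rw [abs_neg, abs_of_pos hε])⟩
            rw [hval]; exact mul_neg_of_neg_of_pos (neg_neg_of_pos hε) hpos
          · refine (mem_RW _ _ _).2 ⟨φ + ε • ψ, ⟨hmem _, ?_⟩, hgen ε (abs_of_pos hε).le⟩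
            rw [hval]; exact mul_pos hε hpos
      refine add_le_add (h4.trans (Finset.card_le_card ?_)) (h5.trans (Finset.card_le_card ?_))
      · intro σ hσ
        obtain ⟨φ, hφ, h6⟩ := (mem_RW _ _ _).1 hσ
        rw [Finset.mem_union]
        rcases lt_trichotomy (φ v) 0 with h7 | h7 | h7
        · exact Or.inl ((mem_RW _ _ _).2 ⟨φ, ⟨hφ, h7⟩, h6⟩)
        · exact Or.inl (hpm φ hφ h7 σ h6).1
        · exact Or.inr ((mem_RW _ _ _).2 ⟨φ, ⟨hφ, h7⟩, h6⟩)
      · intro σ hσ
        obtain ⟨φ, hφ, h6⟩ := (mem_RW _ _ _).1 hσ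
        rw [Finset.mem_inter]
        exact hpm φ hφ.1 hφ.2 σ h6

/-- The functionals vanishing on a list of vectors. -/
def ann (c : List (EuclideanSpace ℝ (Fin d))) : Submodule ℝ (Fl d) where
  carrier := {φ | ∀ u ∈ c, φ u = 0}
  add_mem' := by
    intro a b ha hb u hu
    rw [LinearMap.add_apply, ha u hu, hb u hu, add_zero]
  zero_mem' := by intro u _; rfl
  smul_mem' := by
    intro c a ha u hu
    rw [LinearMap.smul_apply, ha u hu, smul_zero]

theorem ann_inf (c : List (EuclideanSpace ℝ (Fin d))) (v : EuclideanSpace ℝ (Fin d)) :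
    ann c ⊓ LinearMap.ker (Module.Dual.eval ℝ (EuclideanSpace ℝ (Fin d)) v) = ann (c ++ [v]) := by
  ext φ
  constructor
  · rintro ⟨h1, h2⟩ u hu
    rcases List.mem_append.1 hu with hu | hu
    · exact h1 u hu
    · rw [List.mem_singleton] at hu; subst hu; exact h2
  · intro h
    exact ⟨fun u hu => h u (List.mem_append_left _ hu), h v (by simp)⟩

/-- Any at most `d` members of the list are linearly independent. -/
def LIc (l : List (EuclideanSpace ℝ (Fin d))) : Prop :=
  ∀ s : List (EuclideanSpace ℝ (Fin d)), s.Sublist l → s.length ≤ d → LinearIndependent ℝ s.get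

theorem gpv_of_LIc (l0 : List (EuclideanSpace ℝ (Fin d))) (h0 : LIc l0) :
    ∀ l c : List (EuclideanSpace ℝ (Fin d)), (c ++ l).Sublist l0 → GPV l (ann c) := by
  intro l
  induction l with
  | nil => intro c _; trivial
  | cons v l ih =>
    intro c hc
    refine ⟨?_, ?_, ?_⟩
    · intro hne
      have hcv : (c ++ [v]).Sublist l0 := by
        refine List.Sublist.trans ?_ hc
        exact List.Sublist.append_left (List.singleton_sublist.2 List.mem_cons_self) c
      have hlen : c.length < d := by
        by_contra hge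
        push Not at hge
        apply hne
        have h1 : (c.take d).length = d := by rw [List.length_take]; omega
        have h2 := h0 (c.take d) (((List.take_sublist d c).trans
          (List.sublist_append_left c [v])).trans hcv) h1.le
        rw [eq_bot_iff]
        intro φ hφ
        rw [Submodule.mem_bot]
        have h3 : Submodule.span ℝ (Set.range (c.take d).get) = ⊤ := by
          apply h2.span_eq_top_of_card_eq_finrank'
          rw [Fintype.card_fin, h1, finrank_euclideanSpace_fin]
        apply LinearMap.ext_on h3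
        rintro _ ⟨i, rfl⟩
        exact hφ _ (List.mem_of_mem_take (List.get_mem _ _))
      have h1 := h0 (c ++ [v]) hcv (by simp; omega)
      have hv : v ∉ Submodule.span ℝ {u | u ∈ c} := by
        have hi : c.length < (c ++ [v]).length := by simp
        have h2 := h1.notMem_span_image (s := {i | (i : ℕ) < c.length}) (x := ⟨c.length, hi⟩)
          (by simp)
        have h3 : (c ++ [v]).get ⟨c.length, hi⟩ = v := by simp
        rw [h3] at h2
        intro h4
        apply h2
        refine Submodule.span_mono ?_ h4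
        intro u hu
        obtain ⟨i, rfl⟩ := List.get_of_mem hu
        refine ⟨⟨i, by have := i.2; rw [List.length_append]; omega⟩, i.2, ?_⟩
        simp [List.getElem_append_left]
      obtain ⟨f, hf, hf'⟩ := Submodule.exists_dual_map_eq_bot_of_notMem hv inferInstance
      refine ⟨f, ?_, hf⟩
      intro u hu
      have : f u ∈ Submodule.map f (Submodule.span ℝ {u | u ∈ c}) :=
        Submodule.mem_map_of_mem (Submodule.subset_span hu)
      rw [hf', Submodule.mem_bot] at this
      exact this
    · refine ih c (List.Sublist.trans ?_ hc)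
      exact List.Sublist.append_left (List.sublist_cons_self v l) c
    · rw [ann_inf]
      exact ih (c ++ [v]) (by simpa using hc)

theorem cells_le_Cn_univ (l : List (EuclideanSpace ℝ (Fin d))) (h : LIc l) :
    cells l.length d ≤ Cn l Set.univ := by
  have h1 := gpv_of_LIc l h l [] (by simp)
  have h2 : (ann ([] : List (EuclideanSpace ℝ (Fin d)))) = ⊤ := by
    rw [eq_top_iff]; intro φ _ u hu; simp at hu
  rw [h2] at h1
  have h3 := cells_le_Cn l ⊤ h1
  rw [finrank_top, Subspace.dual_finrank_eq, finrank_euclideanSpace_fin] at h3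
  exact h3

/-- General position from the nonvanishing of the determinants. -/
theorem LIc_of_dt (l : List (EuclideanSpace ℝ (Fin d))) (hd : d ≤ l.length)
    (h : ∀ f : Fin d → Fin l.length, StrictMono f → dt (fun i => l.get (f i)) ≠ 0) : LIc l := by
  classical
  intro s hs hle
  obtain ⟨f, hf⟩ := List.sublist_iff_exists_fin_orderEmbedding_get_eq.1 hs
  obtain ⟨J, hJ, _, hJcard⟩ := Finset.exists_subsuperset_card_eq
    (Finset.subset_univ (Finset.univ.image f)) (show (Finset.univ.image f).card ≤ d by
      rw [Finset.card_image_of_injective _ f.injective, Finset.card_univ, Fintype.card_fin]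
      exact hle) (by simpa using hd)
  set g := J.orderEmbOfFin hJcard with hg
  have h1 := dt_linearIndependent (h g g.strictMono)
  have h2 : ∀ i : Fin s.length, ∃ j : Fin d, g j = f i := by
    intro i
    have : f i ∈ Set.range g := by
      rw [hg, Finset.range_orderEmbOfFin]
      exact hJ (Finset.mem_image_of_mem f (Finset.mem_univ i))
    exact this
  choose k hk using h2
  have hkinj : Function.Injective k := by
    intro i j hij
    apply f.injective
    rw [← hk i, ← hk j, hij]
  have h3 := h1.comp k hkinj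
  convert h3 using 1
  ext1 i
  rw [hf i]
  simp [hk]

end Run7.h9
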