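import Mathlib

/-!
# Hierarchical point sets in `ℝ^d`

Definitions used in the statements about the Erdős–Szekeres problem in dimension at least three
for hierarchical (clustered) point sets.
-/

set_option autoImplicit false

open scoped BigOperators

namespace Run7.h9

/-- The determinant of the matrix whose rows are the given `d` vectors of `ℝ^d`. -/
noncomputable def dt {d : ℕ} (y : Fin d → EuclideanSpace ℝ (Fin d)) : ℝ :=
  Matrix.det (Matrix.of fun i j => y i j)

/-- A finite set of points of `ℝ^d` is in convex position when no point of it lies in the convex
hull of the others. -/
def ConvPos {d : ℕ} (Y : Finset (EuclideanSpace ℝ (Fin d))) : Prop :=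
  ∀ p ∈ Y, p ∉ convexHull ℝ ((Y.erase p : Finset (EuclideanSpace ℝ (Fin d))) :
    Set (EuclideanSpace ℝ (Fin d)))

/-- A binary hierarchy of clusters in `ℝ^d`: a single point, or two hierarchies `A`, `B` together
with a vector `v`, the direction in which the cluster of `B` is placed from the cluster of `A`. -/
inductive HSet (d : ℕ) : Type
  | pt (x : EuclideanSpace ℝ (Fin d)) : HSet d
  | join (v : EuclideanSpace ℝ (Fin d)) (A B : HSet d) : HSet d

/-- A split of a cluster into two clusters, with its direction. -/
structure Split (d : ℕ) where
  /-- the direction of the split -/
  dir : EuclideanSpace ℝ (Fin d)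
  /-- the first cluster -/
  left : Finset (EuclideanSpace ℝ (Fin d))
  /-- the second cluster -/
  right : Finset (EuclideanSpace ℝ (Fin d))

namespace HSet

variable {d : ℕ}

open Classical in
/-- The set of points of a hierarchy. -/
noncomputable def points : HSet d → Finset (EuclideanSpace ℝ (Fin d))
  | pt x => {x}
  | join _ A B => A.points ∪ B.points

/-- The branches of a hierarchy: for each of its points, the list of the splits met on the way
from the whole set down to that point, in this order. -/
def branches : HSet d → Set (List (Split d))
  | pt _ => {[]}
  | join v A B =>
      {L | ∃ L' ∈ A.branches ∪ B.branches, L = ⟨v, A.points, B.points⟩ :: L'}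

end HSet

variable {d : ℕ}

/-- `Follows L`: for any `d` splits of the branch `L`, taken from top to bottom, and any
choice of a point `a i` in the first and of a point `b i` in the second cluster of each of them,
the determinant of the differences `b i - a i` is nonzero and has the sign of the determinant of
the directions of these splits. -/
def Follows (L : List (Split d)) : Prop :=
  ∀ f : Fin d → Fin L.length, StrictMono f → ∀ a b : Fin d → EuclideanSpace ℝ (Fin d),
    (∀ i, a i ∈ (L.get (f i)).left) → (∀ i, b i ∈ (L.get (f i)).right) →
      0 < dt (fun i => (L.get (f i)).dir) * dt (fun i => b i - a i)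

/-- A hierarchical set in general position: all its branches follow their directions. -/
def Hierarchical (T : HSet d) : Prop := ∀ L ∈ T.branches, Follows L

end Run7.h9
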