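import Pool.Agent.Run7.h9.Count

set_option autoImplicit false

open scoped BigOperators

namespace Run7.h9

variable {d : ℕ}

open Classical in
/-- The words `w` such that the hierarchy contains a complete binary subhierarchy whose splits at
level `i` all have direction `w i`. -/
noncomputable def WT : HSet d → Finset (List (EuclideanSpace ℝ (Fin d)))
  | HSet.pt _ => {[]}
  | HSet.join v A B => (WT A ∪ WT B) ∪ (WT A ∩ WT B).image (List.cons v)

theorem WT_sublist (T : HSet d) : ∀ w ∈ WT T, ∃ L ∈ T.branches, w.Sublist (L.map Split.dir) := by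
  classical
  induction T with
  | pt x =>
    intro w hw
    simp only [WT, Finset.mem_singleton] at hw
    exact ⟨[], by simp [HSet.branches], by simp [hw]⟩
  | join v A B ihA ihB =>
    intro w hw
    rw [WT, Finset.mem_union, Finset.mem_union, Finset.mem_image] at hw
    rcases hw with (hw | hw) | ⟨w', hw', rfl⟩
    · obtain ⟨L, hL, hs⟩ := ihA w hw
      exact ⟨_, ⟨L, Or.inl hL, rfl⟩, by simpa using hs.cons v⟩
    · obtain ⟨L, hL, hs⟩ := ihB w hw
      exact ⟨_, ⟨L, Or.inr hL, rfl⟩, by simpa using hs.cons v⟩
    · rw [Finset.mem_inter] at hw'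
      obtain ⟨L, hL, hs⟩ := ihA w' hw'.1
      exact ⟨_, ⟨L, Or.inl hL, rfl⟩, by simpa using hs.cons_cons v⟩

theorem card_points_le_WT (T : HSet d)
    (hnd : ∀ L ∈ T.branches, (L.map Split.dir).Nodup) : T.points.card ≤ (WT T).card := by
  classical
  induction T with
  | pt x => simp [HSet.points, WT]
  | join v A B ihA ihB =>
    have hA : ∀ L ∈ A.branches, v ∉ L.map Split.dir ∧ (L.map Split.dir).Nodup := by
      intro L hL
      have := hnd _ ⟨L, Or.inl hL, rfl⟩
      rw [List.map_cons, List.nodup_cons] at this
      exact this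
    have hB : ∀ L ∈ B.branches, v ∉ L.map Split.dir ∧ (L.map Split.dir).Nodup := by
      intro L hL
      have := hnd _ ⟨L, Or.inr hL, rfl⟩
      rw [List.map_cons, List.nodup_cons] at this
      exact this
    have h1 := ihA fun L hL => (hA L hL).2
    have h2 := ihB fun L hL => (hB L hL).2
    have hdisj : Disjoint (WT A ∪ WT B) ((WT A ∩ WT B).image (List.cons v)) := by
      rw [Finset.disjoint_left]
      intro w hw hw'
      rw [Finset.mem_image] at hw'
      obtain ⟨w', _, rfl⟩ := hw'
      rcases Finset.mem_union.1 hw with hw | hw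
      · obtain ⟨L, hL, hs⟩ := WT_sublist A _ hw
        exact (hA L hL).1 (hs.subset List.mem_cons_self)
      · obtain ⟨L, hL, hs⟩ := WT_sublist B _ hw
        exact (hB L hL).1 (hs.subset List.mem_cons_self)
    rw [WT, Finset.card_union_of_disjoint hdisj, Finset.card_image_of_injective _
      (fun a b h => by simpa using h), Finset.card_union_add_card_inter]
    simp only [HSet.points]
    exact (Finset.card_union_le _ _).trans (add_le_add h1 h2)

theorem Cn_le_FM (T : HSet d) : ∀ w ∈ WT T, ∀ r ≤ w.length, ∀ H : Set (Fl d),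
    Cn w H ≤ FM r T H := by
  classical
  induction T with
  | pt x =>
    intro w hw r hr H
    simp only [WT, Finset.mem_singleton] at hw
    subst hw
    have hr0 : r = 0 := by simpa using hr
    subst hr0
    simp [Cn, FM]
  | join v A B ihA ihB =>
    intro w hw r hr H
    rw [WT, Finset.mem_union, Finset.mem_union, Finset.mem_image] at hw
    rw [FM]
    rcases hw with (hw | hw) | ⟨w', hw', rfl⟩
    · exact (ihA w hw (r - 1) (by omega) H).trans ((le_max_left _ _).trans (le_max_left _ _))
    · exact (ihB w hw (r - 1) (by omega) H).trans ((le_max_right _ _).trans (le_max_left _ _))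
    · rw [Finset.mem_inter] at hw'
      refine le_trans ?_ (le_max_right _ _)
      rw [Cn]
      have hr' : r - 1 ≤ w'.length := by simp at hr; omega
      exact add_le_add (ihA w' hw'.1 (r - 1) hr' _) (ihB w' hw'.2 (r - 1) hr' _)

/-- Number of words of bounded length over a finite alphabet. -/
theorem card_words_le {α : Type*} [DecidableEq α] (S : Finset (List α)) (D : Finset α) (m : ℕ)
    (h1 : ∀ w ∈ S, w.length ≤ m) (h2 : ∀ w ∈ S, ∀ x ∈ w, x ∈ D) :
    S.card ≤ (D.card + 1) ^ m := by
  classical
  set O : Finset (Option α) := insert none (D.image some) with hO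
  have hOc : O.card ≤ D.card + 1 := by
    rw [hO]
    exact (Finset.card_insert_le _ _).trans (Nat.add_le_add_right Finset.card_image_le 1)
  have key : S.card ≤ (Fintype.piFinset (fun _ : Fin m => O)).card := by
    refine Finset.card_le_card_of_injOn (fun w => fun i : Fin m => w[(i : ℕ)]?) ?_ ?_
    · intro w hw
      rw [Finset.mem_coe, Fintype.mem_piFinset]
      intro i
      rw [hO, Finset.mem_insert, Finset.mem_image]
      rcases hc : w[(i : ℕ)]? with _ | x
      · exact Or.inl hc
      · exact Or.inr ⟨x, h2 w hw x (List.mem_of_getElem? hc), hc.symm⟩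
    · intro w hw w' hw' heq
      apply List.ext_getElem?
      intro i
      by_cases hi : i < m
      · exact congrFun heq ⟨i, hi⟩
      · have e1 := h1 w hw
        have e2 := h1 w' hw'
        rw [List.getElem?_eq_none (by omega), List.getElem?_eq_none (by omega)]
  rw [Fintype.card_piFinset_const] at key
  exact key.trans (Nat.pow_le_pow_left hOc m)

/-- Combinatorial form of the theorem on few directions. -/
theorem few_directions (hd : 1 ≤ d) (T : HSet d) (hT : Hierarchical T)
    (D : Finset (EuclideanSpace ℝ (Fin d)))
    (hdir : ∀ L ∈ T.branches, (L.map Split.dir).Nodup ∧ ∀ s ∈ L, s.dir ∈ D)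
    (m : ℕ) (hm : d ≤ m) (hN : (D.card + 1) ^ (m - 1) < T.points.card) :
    ∃ Y ⊆ T.points, m.choose (d - 1) ≤ Y.card ∧ ConvPos Y := by
  classical
  have h1 := card_points_le_WT T fun L hL => (hdir L hL).1
  have h2 : ∃ w ∈ WT T, m ≤ w.length := by
    by_contra hcon
    push Not at hcon
    have := card_words_le (WT T) D (m - 1) (fun w hw => by have := hcon w hw; omega) (by
      intro w hw x hx
      obtain ⟨L, hL, hs⟩ := WT_sublist T w hw
      have h3 := hs.subset hx
      rw [List.mem_map] at h3
      obtain ⟨s, hs', rfl⟩ := h3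
      exact (hdir L hL).2 s hs')
    omega
  obtain ⟨w, hw, hlen⟩ := h2
  obtain ⟨L, hL, hs⟩ := WT_sublist T w hw
  have hLlen : d ≤ L.length := by
    have := hs.length_le
    rw [List.length_map] at this
    omega
  -- the directions of the branch are in general position
  have hne : ∀ s ∈ L, s.left.Nonempty ∧ s.right.Nonempty := by
    have key : ∀ T : HSet d, ∀ L ∈ T.branches, ∀ s ∈ L, s.left.Nonempty ∧ s.right.Nonempty := by
      intro T
      induction T with
      | pt x => intro L hL s hs; simp [HSet.branches] at hL; subst hL; simp at hs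
      | join v A B ihA ihB =>
        rintro L ⟨L', hL', rfl⟩ s hs
        rcases List.mem_cons.1 hs with rfl | hs
        · exact ⟨points_nonempty A, points_nonempty B⟩
        · rcases hL' with hL' | hL'
          · exact ihA L' hL' s hs
          · exact ihB L' hL' s hs
    exact key T L hL
  have hLI : LIc (L.map Split.dir) := by
    refine LIc_of_dt _ (by simpa using hLlen) ?_
    intro f hf h0
    have hlenmap : (L.map Split.dir).length = L.length := by simp
    set g : Fin d → Fin L.length := fun i => Fin.cast hlenmap (f i) with hg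
    have hgm : StrictMono g := fun i j hij => hf hij
    choose a ha b hb using fun k : Fin d =>
      (show ∃ a, a ∈ (L.get (g k)).left ∧ ∃ b, b ∈ (L.get (g k)).right from by
        obtain ⟨⟨a, ha⟩, ⟨b, hb⟩⟩ := hne _ (List.get_mem L (g k))
        exact ⟨a, ha, b, hb⟩)
    have h4 := hT L hL g hgm a b ha hb
    have h5 : dt (fun i => (L.get (g i)).dir) = 0 := by
      rw [← h0]
      congr 1
      ext1 i
      simp [hg]
    rw [h5, zero_mul] at h4
    exact lt_irrefl _ h4
  have hLIw : LIc w := fun s hs' hle => hLI s (hs'.trans hs) hle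
  have h6 := cells_le_Cn_univ w hLIw
  have h7 := Cn_le_FM T w hw d (by omega) Set.univ
  obtain ⟨Y, hY, hc, hconv⟩ := exists_convPos T hT Set.univ
  refine ⟨Y, hY, ?_, hconv⟩
  rw [hc]
  have h8 : m.choose (d - 1) ≤ w.length.choose (d - 1) := Nat.choose_le_choose _ hlen
  have h9 := choose_le_cells w.length (d - 1)
  rw [show d - 1 + 1 = d by omega] at h9
  omega

end Run7.h9
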