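import Pool.Agent.Run7.h9.FewDir

set_option autoImplicit false

open scoped BigOperators

namespace Run7.h9

variable {d : ℕ}

/-- The depth of the largest complete binary hierarchy contained in `T` (Strahler number). -/
def rk : HSet d → ℕ
  | HSet.pt _ => 0
  | HSet.join _ A B => if rk A = rk B then rk A + 1 else max (rk A) (rk B)

/-- The depth of a hierarchy. -/
def dp : HSet d → ℕ
  | HSet.pt _ => 0
  | HSet.join _ A B => max (dp A) (dp B) + 1

/-- Branches of the largest complete binary hierarchy. -/
def bpaths : HSet d → List (List (EuclideanSpace ℝ (Fin d)))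
  | HSet.pt _ => [[]]
  | HSet.join v A B =>
      if rk A = rk B then (bpaths A ++ bpaths B).map (List.cons v)
      else if rk B < rk A then bpaths A else bpaths B

theorem bpaths_length (T : HSet d) : (bpaths T).length = 2 ^ rk T := by
  induction T with
  | pt x => simp [bpaths, rk]
  | join v A B ihA ihB =>
    rw [bpaths, rk]
    split_ifs with h1 h2
    · rw [List.length_map, List.length_append, ihA, ihB, ← h1, pow_succ]; ring
    · rw [ihA, max_eq_left h2.le]
    · rw [ihB, max_eq_right (by omega)]

theorem bpaths_mem_length (T : HSet d) : ∀ l ∈ bpaths T, l.length = rk T := by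
  induction T with
  | pt x => simp [bpaths, rk]
  | join v A B ihA ihB =>
    rw [bpaths, rk]
    split_ifs with h1 h2
    · intro l hl
      rw [List.mem_map] at hl
      obtain ⟨l', hl', rfl⟩ := hl
      rw [List.length_cons]
      rcases List.mem_append.1 hl' with h | h
      · rw [ihA l' h]
      · rw [ihB l' h, h1]
    · intro l hl; rw [ihA l hl, max_eq_left h2.le]
    · intro l hl; rw [ihB l hl, max_eq_right (by omega)]

theorem bpaths_sublist (T : HSet d) :
    ∀ l ∈ bpaths T, ∃ L ∈ T.branches, l.Sublist (L.map Split.dir) := by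
  induction T with
  | pt x =>
    intro l hl
    simp only [bpaths, List.mem_singleton] at hl
    exact ⟨[], by simp [HSet.branches], by simp [hl]⟩
  | join v A B ihA ihB =>
    intro l hl
    rw [bpaths] at hl
    split_ifs at hl with h1 h2
    · rw [List.mem_map] at hl
      obtain ⟨l', hl', rfl⟩ := hl
      rcases List.mem_append.1 hl' with h | h
      · obtain ⟨L, hL, hs⟩ := ihA l' h
        exact ⟨_, ⟨L, Or.inl hL, rfl⟩, by simpa using hs.cons_cons v⟩
      · obtain ⟨L, hL, hs⟩ := ihB l' h
        exact ⟨_, ⟨L, Or.inr hL, rfl⟩, by simpa using hs.cons_cons v⟩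
    · obtain ⟨L, hL, hs⟩ := ihA l hl
      exact ⟨_, ⟨L, Or.inl hL, rfl⟩, by simpa using hs.cons v⟩
    · obtain ⟨L, hL, hs⟩ := ihB l hl
      exact ⟨_, ⟨L, Or.inr hL, rfl⟩, by simpa using hs.cons v⟩

/-- Total number of cells over the branches of the largest complete binary hierarchy. -/
noncomputable def SC (T : HSet d) (H : Set (Fl d)) : ℕ :=
  ((bpaths T).map fun l => Cn l H).sum

theorem SC_join_eq (v : EuclideanSpace ℝ (Fin d)) (A B : HSet d) (h : rk A = rk B)
    (H : Set (Fl d)) : SC (HSet.join v A B) H =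
      (SC A {φ ∈ H | φ v < 0} + SC A {φ ∈ H | 0 < φ v}) +
      (SC B {φ ∈ H | φ v < 0} + SC B {φ ∈ H | 0 < φ v}) := by
  unfold SC
  rw [bpaths, if_pos h, List.map_map, List.map_append, List.sum_append]
  have key : ∀ l : List (List (EuclideanSpace ℝ (Fin d))),
      (l.map ((fun l => Cn l H) ∘ List.cons v)).sum =
        (l.map fun l => Cn l {φ ∈ H | φ v < 0}).sum + (l.map fun l => Cn l {φ ∈ H | 0 < φ v}).sum := by
    intro l
    rw [← List.sum_map_add]
    rfl
  rw [key, key]

/-- Opposite set of functionals. -/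
def negS (H : Set (Fl d)) : Set (Fl d) := {φ | -φ ∈ H}

theorem negS_neg (H : Set (Fl d)) (v : EuclideanSpace ℝ (Fin d)) :
    {φ ∈ negS H | φ v < 0} = negS {φ ∈ H | 0 < φ v} := by
  ext φ
  simp [negS]

theorem negS_pos (H : Set (Fl d)) (v : EuclideanSpace ℝ (Fin d)) :
    {φ ∈ negS H | 0 < φ v} = negS {φ ∈ H | φ v < 0} := by
  ext φ
  simp [negS]

/-- Monotonicity of `FM`. -/
theorem FM_mono (T : HSet d) : ∀ r : ℕ, ∀ H H' : Set (Fl d), H ⊆ H' → FM r T H ≤ FM r T H' := by
  classical
  induction T with
  | pt x =>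
    intro r H H' h
    simp only [FM]
    by_cases h1 : r = 0 ∧ H.Nonempty
    · rw [if_pos h1, if_pos ⟨h1.1, h1.2.mono h⟩]
    · rw [if_neg h1]; exact Nat.zero_le _
  | join v A B ihA ihB =>
    intro r H H' h
    rw [FM, FM]
    refine max_le_max (max_le_max (ihA _ _ _ h) (ihB _ _ _ h)) (add_le_add (ihA _ _ _ ?_)
      (ihB _ _ _ ?_))
    · intro φ hφ; exact ⟨h hφ.1, hφ.2⟩
    · intro φ hφ; exact ⟨h hφ.1, hφ.2⟩

/-- The product inequality. -/
theorem prod_ineq (T : HSet d) : ∀ r ≤ rk T, ∀ H : Set (Fl d),
    SC T H ≤ 2 ^ rk T * (FM r T H * FM r T (negS H)) := by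
  classical
  induction T with
  | pt x =>
    intro r hr H
    have hr0 : r = 0 := by simpa [rk] using hr
    subst hr0
    simp only [SC, bpaths, rk, FM, List.map_cons, List.map_nil, List.sum_cons, List.sum_nil, Cn,
      pow_zero, one_mul, add_zero, true_and]
    by_cases h : H.Nonempty
    · have h' : (negS H).Nonempty := by
        obtain ⟨φ, hφ⟩ := h
        exact ⟨-φ, by simpa [negS] using hφ⟩
      rw [if_pos h, if_pos h']
    · rw [if_neg h]; exact Nat.zero_le _
  | join v A B ihA ihB =>
    intro r hr H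
    set F := FM r (HSet.join v A B) H with hF
    set G := FM r (HSet.join v A B) (negS H) with hG
    have hFA : FM (r - 1) A H ≤ F := by rw [hF, FM]; exact (le_max_left _ _).trans (le_max_left _ _)
    have hFB : FM (r - 1) B H ≤ F := by rw [hF, FM]; exact (le_max_right _ _).trans (le_max_left _ _)
    have hGA : FM (r - 1) A (negS H) ≤ G := by
      rw [hG, FM]; exact (le_max_left _ _).trans (le_max_left _ _)
    have hGB : FM (r - 1) B (negS H) ≤ G := by
      rw [hG, FM]; exact (le_max_right _ _).trans (le_max_left _ _)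
    by_cases h1 : rk A = rk B
    · rw [SC_join_eq v A B h1]
      have hrk : rk (HSet.join v A B) = rk A + 1 := by rw [rk, if_pos h1]
      rw [hrk] at hr ⊢
      have hrA : r - 1 ≤ rk A := by omega
      have hrB : r - 1 ≤ rk B := by omega
      set a := FM (r - 1) A {φ ∈ H | φ v < 0} with ha
      set c := FM (r - 1) B {φ ∈ H | 0 < φ v} with hc
      set a' := FM (r - 1) A {φ ∈ H | 0 < φ v} with ha'
      set c' := FM (r - 1) B {φ ∈ H | φ v < 0} with hc'
      set b := FM (r - 1) A (negS {φ ∈ H | φ v < 0}) with hb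
      set e := FM (r - 1) B (negS {φ ∈ H | 0 < φ v}) with he
      set b' := FM (r - 1) A (negS {φ ∈ H | 0 < φ v}) with hb'
      set e' := FM (r - 1) B (negS {φ ∈ H | φ v < 0}) with he'
      have i1 := ihA (r - 1) hrA {φ ∈ H | φ v < 0}
      have i2 := ihA (r - 1) hrA {φ ∈ H | 0 < φ v}
      have i3 := ihB (r - 1) hrB {φ ∈ H | φ v < 0}
      have i4 := ihB (r - 1) hrB {φ ∈ H | 0 < φ v}
      rw [← h1] at i3 i4
      rw [← ha, ← hb] at i1
      rw [← ha', ← hb'] at i2
      rw [← hc', ← he'] at i3
      rw [← hc, ← he] at i4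
      have hac : a + c ≤ F := by rw [hF, FM]; exact le_max_right _ _
      have hbe : b' + e' ≤ G := by
        rw [hG, FM, negS_neg, negS_pos]; exact le_max_right _ _
      have hb1 : b ≤ G := (FM_mono A _ _ _ (fun φ hφ => hφ.1)).trans hGA
      have he1 : e ≤ G := (FM_mono B _ _ _ (fun φ hφ => hφ.1)).trans hGB
      have ha1 : a' ≤ F := (FM_mono A _ _ _ (fun φ hφ => hφ.1)).trans hFA
      have hc1 : c' ≤ F := (FM_mono B _ _ _ (fun φ hφ => hφ.1)).trans hFB
      have k1 : a * b + c * e ≤ F * G := by
        calc a * b + c * e ≤ a * G + c * G := add_le_add (Nat.mul_le_mul_left _ hb1)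
              (Nat.mul_le_mul_left _ he1)
          _ = (a + c) * G := by ring
          _ ≤ F * G := Nat.mul_le_mul_right _ hac
      have k2 : a' * b' + c' * e' ≤ F * G := by
        calc a' * b' + c' * e' ≤ F * b' + F * e' := add_le_add (Nat.mul_le_mul_right _ ha1)
              (Nat.mul_le_mul_right _ hc1)
          _ = F * (b' + e') := by ring
          _ ≤ F * G := Nat.mul_le_mul_left _ hbe
      calc (SC A {φ ∈ H | φ v < 0} + SC A {φ ∈ H | 0 < φ v}) +
            (SC B {φ ∈ H | φ v < 0} + SC B {φ ∈ H | 0 < φ v})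
          ≤ (2 ^ rk A * (a * b) + 2 ^ rk A * (a' * b')) +
            (2 ^ rk A * (c' * e') + 2 ^ rk A * (c * e)) :=
            add_le_add (add_le_add i1 i2) (add_le_add i3 i4)
        _ = 2 ^ rk A * ((a * b + c * e) + (a' * b' + c' * e')) := by ring
        _ ≤ 2 ^ rk A * (F * G + F * G) := Nat.mul_le_mul_left _ (add_le_add k1 k2)
        _ = 2 ^ (rk A + 1) * (F * G) := by rw [pow_succ]; ring
    · by_cases h2 : rk B < rk A
      · have hrk : rk (HSet.join v A B) = rk A := by rw [rk, if_neg h1, max_eq_left h2.le]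
        rw [hrk] at hr ⊢
        have hSC : SC (HSet.join v A B) H = SC A H := by
          unfold SC; rw [bpaths, if_neg h1, if_pos h2]
        rw [hSC]
        exact (ihA (r - 1) (by omega) H).trans (Nat.mul_le_mul_left _ (Nat.mul_le_mul hFA hGA))
      · have h3 : rk A < rk B := by omega
        have hrk : rk (HSet.join v A B) = rk B := by rw [rk, if_neg h1, max_eq_right h3.le]
        rw [hrk] at hr ⊢
        have hSC : SC (HSet.join v A B) H = SC B H := by
          unfold SC; rw [bpaths, if_neg h1, if_neg h2]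
        rw [hSC]
        exact (ihB (r - 1) (by omega) H).trans (Nat.mul_le_mul_left _ (Nat.mul_le_mul hFB hGB))

theorem nonempty_of_branch (T : HSet d) :
    ∀ L ∈ T.branches, ∀ s ∈ L, s.left.Nonempty ∧ s.right.Nonempty := by
  induction T with
  | pt x => intro L hL s hs; simp [HSet.branches] at hL; subst hL; simp at hs
  | join v A B ihA ihB =>
    rintro L ⟨L', hL', rfl⟩ s hs
    rcases List.mem_cons.1 hs with rfl | hs
    · exact ⟨points_nonempty A, points_nonempty B⟩
    · rcases hL' with hL' | hL'
      · exact ihA L' hL' s hs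
      · exact ihB L' hL' s hs

/-- The directions of a long branch are in general position. -/
theorem LIc_branch (T : HSet d) (hT : Hierarchical T) (L : List (Split d)) (hL : L ∈ T.branches)
    (hLlen : d ≤ L.length) : LIc (L.map Split.dir) := by
  classical
  refine LIc_of_dt _ (by simpa using hLlen) ?_
  intro f hf h0
  have hlenmap : (L.map Split.dir).length = L.length := by simp
  set g : Fin d → Fin L.length := fun i => Fin.cast hlenmap (f i) with hg
  have hgm : StrictMono g := fun i j hij => hf hij
  choose a ha b hb using fun k : Fin d =>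
    (show ∃ a, a ∈ (L.get (g k)).left ∧ ∃ b, b ∈ (L.get (g k)).right from by
      obtain ⟨⟨a, ha⟩, ⟨b, hb⟩⟩ := nonempty_of_branch T L hL _ (List.get_mem L (g k))
      exact ⟨a, ha, b, hb⟩)
  have h4 := hT L hL g hgm a b ha hb
  have h5 : dt (fun i => (L.get (g i)).dir) = 0 := by
    rw [← h0]
    congr 1
    ext1 i
    simp [hg]
  rw [h5, zero_mul] at h4
  exact lt_irrefl _ h4

/-- Consequence of the product inequality for hierarchical sets. -/
theorem cells_le_sq (T : HSet d) (hT : Hierarchical T) (hrk : d ≤ rk T) :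
    cells (rk T) d ≤ FM d T Set.univ * FM d T Set.univ := by
  have h1 := prod_ineq T d hrk Set.univ
  have h2 : negS (Set.univ : Set (Fl d)) = Set.univ := by ext φ; simp [negS]
  rw [h2] at h1
  have h3 : 2 ^ rk T * cells (rk T) d ≤ SC T Set.univ := by
    unfold SC
    have h4 : ∀ x ∈ (bpaths T).map (fun l => Cn l Set.univ), cells (rk T) d ≤ x := by
      intro x hx
      rw [List.mem_map] at hx
      obtain ⟨l, hl, rfl⟩ := hx
      obtain ⟨L, hL, hs⟩ := bpaths_sublist T l hl
      have hlen := bpaths_mem_length T l hl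
      have hLlen : d ≤ L.length := by
        have := hs.length_le
        rw [List.length_map] at this
        omega
      have hLI := LIc_branch T hT L hL hLlen
      have hLIl : LIc l := fun s hs' hle => hLI s (hs'.trans hs) hle
      have := cells_le_Cn_univ l hLIl
      rwa [hlen] at this
    have h5 := List.card_nsmul_le_sum _ _ h4
    rw [List.length_map, bpaths_length, smul_eq_mul] at h5
    exact h5
  exact Nat.le_of_mul_le_mul_left (h3.trans h1) (by positivity)

/-- Number of points against depth and Strahler number. -/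
theorem card_points_le (T : HSet d) : T.points.card ≤ (dp T + 1) ^ rk T := by
  classical
  induction T with
  | pt x => simp [HSet.points, rk]
  | join v A B ihA ihB =>
    have hcard : (HSet.join v A B).points.card ≤ A.points.card + B.points.card := by
      simp only [HSet.points]; exact Finset.card_union_le _ _
    refine hcard.trans ((add_le_add ihA ihB).trans ?_)
    rw [rk, dp]
    set x := max (dp A) (dp B) + 1 with hx
    have hxA : dp A + 1 ≤ x := by rw [hx]; exact Nat.add_le_add_right (le_max_left _ _) 1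
    have hxB : dp B + 1 ≤ x := by rw [hx]; exact Nat.add_le_add_right (le_max_right _ _) 1
    have hx1 : 1 ≤ x := by omega
    have key : ∀ ρ σ : ℕ, σ < ρ → x ^ ρ + x ^ σ ≤ (x + 1) ^ ρ := by
      intro ρ σ hσ
      obtain ⟨m, rfl⟩ : ∃ m, ρ = m + 1 := ⟨ρ - 1, by omega⟩
      have h1 : x ^ σ ≤ x ^ m := Nat.pow_le_pow_right hx1 (by omega)
      have h2 : x ^ m ≤ (x + 1) ^ m := Nat.pow_le_pow_left (by omega) m
      calc x ^ (m + 1) + x ^ σ ≤ x ^ (m + 1) + x ^ m := by omega
        _ = x ^ m * (x + 1) := by ring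
        _ ≤ (x + 1) ^ m * (x + 1) := Nat.mul_le_mul_right _ h2
        _ = (x + 1) ^ (m + 1) := by ring
    split_ifs with h
    · calc (dp A + 1) ^ rk A + (dp B + 1) ^ rk B ≤ x ^ rk A + x ^ rk B :=
          add_le_add (Nat.pow_le_pow_left hxA _) (Nat.pow_le_pow_left hxB _)
        _ = 2 * x ^ rk A := by rw [← h]; ring
        _ ≤ (x + 1) * (x + 1) ^ rk A := Nat.mul_le_mul (by omega) (Nat.pow_le_pow_left (by omega) _)
        _ = (x + 1) ^ (rk A + 1) := by ring
    · rcases lt_or_gt_of_ne h with h' | h'
      · rw [max_eq_right h'.le]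
        calc (dp A + 1) ^ rk A + (dp B + 1) ^ rk B ≤ x ^ rk A + x ^ rk B :=
            add_le_add (Nat.pow_le_pow_left hxA _) (Nat.pow_le_pow_left hxB _)
          _ = x ^ rk B + x ^ rk A := by ring
          _ ≤ (x + 1) ^ rk B := key _ _ h'
      · rw [max_eq_left (show rk B ≤ rk A by omega)]
        calc (dp A + 1) ^ rk A + (dp B + 1) ^ rk B ≤ x ^ rk A + x ^ rk B :=
            add_le_add (Nat.pow_le_pow_left hxA _) (Nat.pow_le_pow_left hxB _)
          _ ≤ (x + 1) ^ rk A := key _ _ h'

end Run7.h9
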